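import Pool.Agent.Q291.TT.Inf

/-!
Two-point functions of bond percolation on the square lattice above the critical point: the
pointwise bounds (by helper291).
-/

set_option maxHeartbeats 400000

namespace Q291.TT

open Finset H974 Pool.Agent.H160R2.CV Pool.Agent.H160R2.CV.Quad H362P Pool.Agent.Y244.PC Q291.CS
open Q291.SA MeasureTheory Filter

theorem pow_t {s : ℝ} (hs : 0 ≤ s) : (s ^ (4 / 3 : ℝ)) ^ (5 / 48 : ℝ) = s ^ (5 / 36 : ℝ) := by
  rw [← Real.rpow_mul hs]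
  norm_num

theorem t_bd (p : unitInterval) (hp : (1 / 2 : ℝ) ≤ p) :
    0 ≤ ((p : ℝ) - 1 / 2) ^ (4 / 3 : ℝ) ∧ ((p : ℝ) - 1 / 2) ^ (4 / 3 : ℝ) ≤ 1 := by
  have h1 := p.2.2
  exact ⟨Real.rpow_nonneg (by linarith) _,
    Real.rpow_le_one (by linarith) (by linarith) (by norm_num)⟩

theorem theta_up : ∃ C : ℝ, 0 < C ∧ ∀ p : unitInterval, (1 / 2 : ℝ) ≤ p →
    theta p ≤ C * ((p : ℝ) - 1 / 2) ^ (5 / 36 : ℝ) := by
  obtain ⟨C, hC, h⟩ := Pool.Agent.Y554.NC.theta_upper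
  refine ⟨C, hC, fun p hp => ?_⟩
  rcases hp.eq_or_lt with h1 | h1
  · rw [theta_half_le h1.symm.le]
    exact mul_nonneg hC.le (Real.rpow_nonneg (by linarith) _)
  · exact h p h1

theorem theta_low : ∃ c : ℝ, 0 < c ∧ ∀ p : unitInterval, (1 / 2 : ℝ) ≤ p →
    c * ((p : ℝ) - 1 / 2) ^ (5 / 36 : ℝ) ≤ theta p := by
  obtain ⟨c, hc, h⟩ := Pool.Agent.Y554.NC.theta_lower'
  refine ⟨c, hc, fun p hp => ?_⟩
  rcases hp.eq_or_lt with h1 | h1
  · rw [← h1, sub_self, Real.zero_rpow (by norm_num), mul_zero]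
    exact theta_nonneg p
  · exact h p h1

theorem arm_up : ∃ C : ℝ, 0 < C ∧ ∀ p : unitInterval, (1 / 2 : ℝ) ≤ p → ∀ n : ℕ, 1 ≤ n →
    arm p n ≤ C * ((n : ℝ) ^ (-(5 / 48) : ℝ) + ((p : ℝ) - 1 / 2) ^ (5 / 36 : ℝ)) := by
  obtain ⟨C1, hC1, h1⟩ := theta_up
  obtain ⟨c2, C2, hc2, hC2, h2⟩ := radUp
  refine ⟨C1 + C2, by positivity, fun p hp n hn => ?_⟩
  have g1 := h1 p hp
  have g2 := h2 p hp n hn
  have g3 := arm_split p n
  have hs : 0 ≤ ((p : ℝ) - 1 / 2) ^ (5 / 36 : ℝ) := Real.rpow_nonneg (by linarith) _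
  have ht := (t_bd p hp).1
  have hn0 : (0 : ℝ) < n := by exact_mod_cast hn
  have hnp : 0 ≤ (n : ℝ) ^ (-(5 / 48) : ℝ) := by positivity
  have g4 : C2 * (n : ℝ) ^ (-(5 / 48 : ℝ)) *
      Real.exp (-(c2 * (n * ((p : ℝ) - 1 / 2) ^ (4 / 3 : ℝ)))) ≤
      C2 * (n : ℝ) ^ (-(5 / 48) : ℝ) := by
    have : Real.exp (-(c2 * (n * ((p : ℝ) - 1 / 2) ^ (4 / 3 : ℝ)))) ≤ 1 := by
      rw [Real.exp_le_one_iff]
      have : 0 ≤ c2 * (n * ((p : ℝ) - 1 / 2) ^ (4 / 3 : ℝ)) := by positivity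
      linarith
    calc _ ≤ C2 * (n : ℝ) ^ (-(5 / 48 : ℝ)) * 1 :=
          mul_le_mul_of_nonneg_left this (by positivity)
      _ = _ := mul_one _
  have e1 := mul_nonneg hC1.le hnp
  have e2 := mul_nonneg hC2.le hs
  calc arm p n ≤ _ := g3
    _ ≤ C1 * ((p : ℝ) - 1 / 2) ^ (5 / 36 : ℝ) + C2 * (n : ℝ) ^ (-(5 / 48) : ℝ) :=
        add_le_add g1 (g2.trans g4)
    _ ≤ _ := by
        rw [mul_add, add_mul, add_mul]
        linarith

/-- the square of the arm probability minus the square of the percolation probability -/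
theorem conn_up : ∃ c C : ℝ, 0 < c ∧ 0 < C ∧ ∀ p : unitInterval, (1 / 2 : ℝ) ≤ p → ∀ n : ℕ, 1 ≤ n →
    arm p n ^ 2 - theta p ^ 2 ≤ C * (n : ℝ) ^ (-(5 / 24) : ℝ) *
      Real.exp (-(c * (n * ((p : ℝ) - 1 / 2) ^ (4 / 3 : ℝ)))) := by
  obtain ⟨C1, hC1, h1⟩ := arm_up
  obtain ⟨c2, C2, hc2, hC2, h2⟩ := radUp
  refine ⟨c2 / 2, C2 * (2 * C1) * (2 + 2 / c2), by positivity, by positivity, fun p hp n hn => ?_⟩
  have g1 := h1 p hp n hn
  have g2 := h2 p hp n hn
  have g3 := arm_split p n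
  obtain ⟨s, hs⟩ : ∃ s : ℝ, s = (p : ℝ) - 1 / 2 := ⟨_, rfl⟩
  have hs0 : 0 ≤ s := by rw [hs]; linarith
  rw [← hs] at g1 g2 ⊢
  obtain ⟨t, ht⟩ : ∃ t : ℝ, t = s ^ (4 / 3 : ℝ) := ⟨_, rfl⟩
  have ht0 : 0 ≤ t := by rw [ht]; positivity
  rw [← ht] at g2 ⊢
  have hn0 : (0 : ℝ) < n := by exact_mod_cast hn
  obtain ⟨a, ha⟩ : ∃ a : ℝ, a = (n : ℝ) ^ (-(5 / 48) : ℝ) := ⟨_, rfl⟩
  have ha0 : 0 < a := by rw [ha]; positivity
  have ha2 : (n : ℝ) ^ (-(5 / 24) : ℝ) = a ^ 2 := by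
    rw [ha, ← Real.rpow_natCast, ← Real.rpow_mul hn0.le]
    norm_num
  obtain ⟨u, hu⟩ : ∃ u : ℝ, u = (n : ℝ) * t := ⟨_, rfl⟩
  have hu0 : 0 ≤ u := by rw [hu]; positivity
  have hst : s ^ (5 / 36 : ℝ) ≤ a * (1 + u) := by
    rw [← pow_t hs0, ← ht]
    have e1 : t = u * (n : ℝ)⁻¹ := by rw [hu]; field_simp
    have e2 : t ^ (5 / 48 : ℝ) = u ^ (5 / 48 : ℝ) * a := by
      rw [e1, Real.mul_rpow hu0 (by positivity), ha, Real.rpow_neg hn0.le, Real.inv_rpow hn0.le]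
    rw [e2, mul_comm a]
    apply mul_le_mul_of_nonneg_right _ ha0.le
    rcases le_or_gt u 1 with h | h
    · have := Real.rpow_le_one hu0 h (by norm_num : (0 : ℝ) ≤ 5 / 48)
      linarith
    · have : u ^ (5 / 48 : ℝ) ≤ u ^ (1 : ℝ) :=
        Real.rpow_le_rpow_of_exponent_le h.le (by norm_num)
      rw [Real.rpow_one] at this
      linarith
  have hth0 := theta_nonneg p
  have hth := theta_le_arm p n
  have hrf : 0 ≤ rf p n := measureReal_nonneg
  rw [← ha] at g1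
  have g1' : arm p n ≤ C1 * (a * (2 + u)) := by
    refine g1.trans (mul_le_mul_of_nonneg_left ?_ hC1.le)
    linarith
  have g2' : rf p n ≤ C2 * a * Real.exp (-(c2 * u)) := by
    rw [ha, hu]
    exact g2
  have k1 : arm p n ^ 2 - theta p ^ 2 ≤ rf p n * (2 * arm p n) := by
    have : arm p n ^ 2 - theta p ^ 2 = (arm p n - theta p) * (arm p n + theta p) := by ring
    rw [this]
    apply mul_le_mul (by linarith) (by linarith) (by linarith) hrf
  have k2 : (2 + u) * Real.exp (-(c2 * u)) ≤ (2 + 2 / c2) * Real.exp (-(c2 / 2 * u)) := by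
    have e1 := sqrt_exp hc2 hu0
    have e2 : Real.exp (-(c2 * u)) ≤ Real.exp (-(c2 / 2 * u)) := by
      apply Real.exp_le_exp.mpr
      nlinarith
    linarith
  rw [ha2, ← hu]
  calc arm p n ^ 2 - theta p ^ 2 ≤ rf p n * (2 * arm p n) := k1
    _ ≤ (C2 * a * Real.exp (-(c2 * u))) * (2 * (C1 * (a * (2 + u)))) := by
        apply mul_le_mul g2' (by linarith) (by linarith [hth0.trans hth])
        positivity
    _ = C2 * (2 * C1) * a ^ 2 * ((2 + u) * Real.exp (-(c2 * u))) := by ring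
    _ ≤ C2 * (2 * C1) * a ^ 2 * ((2 + 2 / c2) * Real.exp (-(c2 / 2 * u))) :=
        mul_le_mul_of_nonneg_left k2 (by positivity)
    _ = _ := by ring

theorem third {m : ℕ} (hm : 3 ≤ m) : ((m : ℝ) + 1) / 6 ≤ ((m / 3 : ℕ) : ℝ) ∧
    (m : ℝ) / 6 ≤ ((m / 3 : ℕ) : ℝ) := by
  have h : m + 1 ≤ 6 * (m / 3) := by omega
  have h' : (m : ℝ) + 1 ≤ 6 * ((m / 3 : ℕ) : ℝ) := by exact_mod_cast h
  constructor <;> linarith

/-- the passage from the radius to the position -/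
theorem conn_x : ∃ c C : ℝ, 0 < c ∧ 0 < C ∧ ∀ p : unitInterval, (1 / 2 : ℝ) ≤ p → ∀ (x : Vtx)
    (f : ℝ), f ≤ 1 → (3 ≤ nv x → f ≤ arm p (nv x / 3) ^ 2 - theta p ^ 2) →
    f ≤ C * ((nv x : ℝ) + 1) ^ (-(5 / 24) : ℝ) *
      Real.exp (-(c * (nv x * ((p : ℝ) - 1 / 2) ^ (4 / 3 : ℝ)))) := by
  obtain ⟨c, C, hc, hC, h⟩ := conn_up
  refine ⟨c / 6, C * 6 + 3 * Real.exp (2 * c), by positivity, by positivity,
    fun p hp x f hf1 hf => ?_⟩
  obtain ⟨ht0, ht1⟩ := t_bd p hp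
  obtain ⟨t, ht⟩ : ∃ t : ℝ, t = ((p : ℝ) - 1 / 2) ^ (4 / 3 : ℝ) := ⟨_, rfl⟩
  rw [← ht] at ht0 ht1 ⊢
  obtain ⟨m, hm⟩ : ∃ m : ℕ, m = nv x := ⟨_, rfl⟩
  rw [← hm] at hf ⊢
  have hm0 : (0 : ℝ) ≤ m := by positivity
  have hmp : 0 < ((m : ℝ) + 1) ^ (-(5 / 24) : ℝ) := by positivity
  have hex : 0 < Real.exp (-(c / 6 * (m * t))) := Real.exp_pos _
  by_cases hcase : 3 ≤ m
  · have g1 := h p hp (m / 3) (by omega)
    rw [← ht] at g1
    obtain ⟨t1, t2⟩ := third hcase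
    have g2 : ((m / 3 : ℕ) : ℝ) ^ (-(5 / 24) : ℝ) ≤ 6 * ((m : ℝ) + 1) ^ (-(5 / 24) : ℝ) := by
      calc ((m / 3 : ℕ) : ℝ) ^ (-(5 / 24) : ℝ) ≤ (((m : ℝ) + 1) / 6) ^ (-(5 / 24) : ℝ) :=
            Real.rpow_le_rpow_of_nonpos (by positivity) t1 (by norm_num)
        _ = (6 : ℝ) ^ (5 / 24 : ℝ) * ((m : ℝ) + 1) ^ (-(5 / 24) : ℝ) := by
            rw [div_eq_mul_inv, Real.mul_rpow (by linarith) (by norm_num),
              Real.inv_rpow (by norm_num), ← Real.rpow_neg (by norm_num), neg_neg]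
            ring
        _ ≤ 6 * ((m : ℝ) + 1) ^ (-(5 / 24) : ℝ) := by
            apply mul_le_mul_of_nonneg_right _ hmp.le
            calc (6 : ℝ) ^ (5 / 24 : ℝ) ≤ (6 : ℝ) ^ (1 : ℝ) :=
                  Real.rpow_le_rpow_of_exponent_le (by norm_num) (by norm_num)
              _ = 6 := Real.rpow_one _
    have g3 : Real.exp (-(c * (((m / 3 : ℕ) : ℝ) * t))) ≤ Real.exp (-(c / 6 * (m * t))) := by
      apply Real.exp_le_exp.mpr
      have := mul_le_mul_of_nonneg_right t2 ht0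
      have := mul_le_mul_of_nonneg_left this hc.le
      linarith
    calc f ≤ _ := hf hcase
      _ ≤ _ := g1
      _ ≤ C * (6 * ((m : ℝ) + 1) ^ (-(5 / 24) : ℝ)) * Real.exp (-(c / 6 * (m * t))) := by
          apply mul_le_mul _ g3 (Real.exp_pos _).le (by positivity)
          exact mul_le_mul_of_nonneg_left g2 hC.le
      _ = (C * 6) * ((m : ℝ) + 1) ^ (-(5 / 24) : ℝ) * Real.exp (-(c / 6 * (m * t))) := by ring
      _ ≤ _ := by
          apply mul_le_mul_of_nonneg_right _ hex.le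
          apply mul_le_mul_of_nonneg_right _ hmp.le
          have := Real.exp_pos (2 * c)
          linarith
  · have hm2 : (m : ℝ) ≤ 2 := by
      have : m ≤ 2 := by omega
      exact_mod_cast this
    have g1 : 1 / 3 ≤ ((m : ℝ) + 1) ^ (-(5 / 24) : ℝ) := by
      calc (1 / 3 : ℝ) = (3 : ℝ) ^ (-1 : ℝ) := by rw [Real.rpow_neg_one]; norm_num
        _ ≤ (3 : ℝ) ^ (-(5 / 24) : ℝ) :=
            Real.rpow_le_rpow_of_exponent_le (by norm_num) (by norm_num)
        _ ≤ _ := Real.rpow_le_rpow_of_nonpos (by positivity) (by linarith) (by norm_num)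
    have g2 : Real.exp (-(2 * c)) ≤ Real.exp (-(c / 6 * (m * t))) := by
      apply Real.exp_le_exp.mpr
      have : (m : ℝ) * t ≤ 2 * 1 := mul_le_mul hm2 ht1 ht0 (by norm_num)
      nlinarith
    have g3 : Real.exp (2 * c) * Real.exp (-(2 * c)) = 1 := by
      rw [← Real.exp_add]; simp
    calc f ≤ 1 := hf1
      _ = 3 * Real.exp (2 * c) * (1 / 3) * Real.exp (-(2 * c)) := by
          rw [show 3 * Real.exp (2 * c) * (1 / 3) * Real.exp (-(2 * c)) =
            Real.exp (2 * c) * Real.exp (-(2 * c)) by ring, g3]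
      _ ≤ 3 * Real.exp (2 * c) * ((m : ℝ) + 1) ^ (-(5 / 24) : ℝ) *
          Real.exp (-(c / 6 * (m * t))) := by
          apply mul_le_mul _ g2 (Real.exp_pos _).le (by positivity)
          exact mul_le_mul_of_nonneg_left g1 (by positivity)
      _ ≤ _ := by
          apply mul_le_mul_of_nonneg_right _ hex.le
          apply mul_le_mul_of_nonneg_right _ hmp.le
          linarith

/-- the connected two-point function from above -/
theorem up_tau : ∃ c C : ℝ, 0 < c ∧ 0 < C ∧ ∀ p : unitInterval, (1 / 2 : ℝ) ≤ p → ∀ x : Vtx,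
    H31K.tau p x - theta p ^ 2 ≤ C * ((nv x : ℝ) + 1) ^ (-(5 / 24) : ℝ) *
      Real.exp (-(c * (nv x * ((p : ℝ) - 1 / 2) ^ (4 / 3 : ℝ)))) := by
  obtain ⟨c, C, hc, hC, h⟩ := conn_x
  refine ⟨c, C, hc, hC, fun p hp x => h p hp x _ ?_ fun hx => ?_⟩
  · have h1 : H31K.tau p x ≤ 1 := measureReal_le_one
    have := sq_nonneg (theta p)
    linarith
  · have := tau_sq p x
    linarith

theorem up_two : ∃ c C : ℝ, 0 < c ∧ 0 < C ∧ ∀ p : unitInterval, (1 / 2 : ℝ) ≤ p → ∀ x : Vtx,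
    thetaTwo p x - theta p ^ 2 ≤ C * ((nv x : ℝ) + 1) ^ (-(5 / 24) : ℝ) *
      Real.exp (-(c * (nv x * ((p : ℝ) - 1 / 2) ^ (4 / 3 : ℝ)))) := by
  obtain ⟨c, C, hc, hC, h⟩ := conn_x
  refine ⟨c, C, hc, hC, fun p hp x => h p hp x _ ?_ fun hx => ?_⟩
  · have h1 : thetaTwo p x ≤ 1 := measureReal_le_one
    have := sq_nonneg (theta p)
    linarith
  · have := two_sq p (x := x) (r := nv x / 3) (by omega)
    linarith

/-- the covariance of the infinite cluster from above -/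
theorem up_cov : ∃ c C : ℝ, 0 < c ∧ 0 < C ∧ ∀ p : unitInterval, (1 / 2 : ℝ) ≤ p → ∀ x : Vtx,
    thetaTwo p x - theta p ^ 2 ≤ C * (((nv x : ℝ) + 1) ^ (-(5 / 48) : ℝ) *
      ((p : ℝ) - 1 / 2) ^ (5 / 36 : ℝ)) *
      Real.exp (-(c * (nv x * ((p : ℝ) - 1 / 2) ^ (4 / 3 : ℝ)))) := by
  obtain ⟨c, C, hc, hC, h⟩ := up_two
  obtain ⟨C1, hC1, h1⟩ := arm_up
  obtain ⟨C2, hC2, h2⟩ := theta_up
  obtain ⟨K, hK⟩ : ∃ K : ℝ, K = 2 ^ 188 * (C1 * 12) * C2 + 3 * C2 := ⟨_, rfl⟩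
  have hK0 : 0 < K := by rw [hK]; positivity
  have hKa : 2 ^ 188 * (C1 * 12) * C2 ≤ K := by
    rw [hK]
    have : 0 < 3 * C2 := by positivity
    linarith
  have hKb : 3 * C2 ≤ K := by
    rw [hK]
    have : 0 < 2 ^ 188 * (C1 * 12) * C2 := by positivity
    linarith
  refine ⟨c, C + K * Real.exp c, hc, by positivity, fun p hp x => ?_⟩
  have g0 := h p hp x
  obtain ⟨ht0, ht1⟩ := t_bd p hp
  obtain ⟨s, hs⟩ : ∃ s : ℝ, s = (p : ℝ) - 1 / 2 := ⟨_, rfl⟩
  have hs0 : 0 ≤ s := by rw [hs]; linarith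
  rw [← hs] at g0 ht0 ht1 ⊢
  obtain ⟨t, ht⟩ : ∃ t : ℝ, t = s ^ (4 / 3 : ℝ) := ⟨_, rfl⟩
  rw [← ht] at ht0 ht1 g0 ⊢
  obtain ⟨σ, hσ⟩ : ∃ σ : ℝ, σ = s ^ (5 / 36 : ℝ) := ⟨_, rfl⟩
  have hσt : t ^ (5 / 48 : ℝ) = σ := by rw [hσ, ht]; exact pow_t hs0
  have hσ0 : 0 ≤ σ := by rw [hσ]; positivity
  rw [← hσ]
  obtain ⟨m, hm⟩ : ∃ m : ℕ, m = nv x := ⟨_, rfl⟩
  rw [← hm] at g0 ⊢
  have hm0 : (0 : ℝ) ≤ m := by positivity
  obtain ⟨a, ha⟩ : ∃ a : ℝ, a = ((m : ℝ) + 1) ^ (-(5 / 48) : ℝ) := ⟨_, rfl⟩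
  have ha0 : 0 < a := by rw [ha]; positivity
  have ha2 : ((m : ℝ) + 1) ^ (-(5 / 24) : ℝ) = a ^ 2 := by
    rw [ha, ← Real.rpow_natCast, ← Real.rpow_mul (by positivity)]
    norm_num
  rw [ha2] at g0
  rw [← ha]
  have hex : 0 < Real.exp (-(c * (m * t))) := Real.exp_pos _
  have hec := Real.exp_pos c
  have haσ : 0 ≤ a * σ := mul_nonneg ha0.le hσ0
  by_cases hcase : (m : ℝ) * t ≤ 1
  · have k0 : thetaTwo p x ≤ K * (a * σ) := by
      by_cases h3 : 3 ≤ m
      · obtain ⟨t1, t2⟩ := third h3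
        have k1 := two_mul p hp (x := x) (r := m / 3) (by omega) (by omega)
        have k2 := h1 p hp (m / 3) (by omega)
        have k3 := h2 p hp
        rw [← hs, ← hσ] at k2 k3
        have k4 : ((m / 3 : ℕ) : ℝ) ^ (-(5 / 48) : ℝ) ≤ 6 * a := by
          calc ((m / 3 : ℕ) : ℝ) ^ (-(5 / 48) : ℝ) ≤ (((m : ℝ) + 1) / 6) ^ (-(5 / 48) : ℝ) :=
                Real.rpow_le_rpow_of_nonpos (by positivity) t1 (by norm_num)
            _ = (6 : ℝ) ^ (5 / 48 : ℝ) * a := by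
                rw [ha, div_eq_mul_inv, Real.mul_rpow (by linarith) (by norm_num),
                  Real.inv_rpow (by norm_num), ← Real.rpow_neg (by norm_num), neg_neg]
                ring
            _ ≤ 6 * a := by
                apply mul_le_mul_of_nonneg_right _ ha0.le
                calc (6 : ℝ) ^ (5 / 48 : ℝ) ≤ (6 : ℝ) ^ (1 : ℝ) :=
                      Real.rpow_le_rpow_of_exponent_le (by norm_num) (by norm_num)
                  _ = 6 := Real.rpow_one _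
        have k5 : σ ≤ 6 * a := by
          rw [← hσt]
          have hm3 : (3 : ℝ) ≤ m := by exact_mod_cast h3
          have e1 : t ≤ ((m : ℝ) + 1)⁻¹ * 6 := by
            rw [← div_eq_inv_mul, le_div_iff₀ (by linarith)]
            nlinarith
          calc t ^ (5 / 48 : ℝ) ≤ (((m : ℝ) + 1)⁻¹ * 6) ^ (5 / 48 : ℝ) :=
                Real.rpow_le_rpow ht0 e1 (by norm_num)
            _ = a * (6 : ℝ) ^ (5 / 48 : ℝ) := by
                rw [Real.mul_rpow (by positivity) (by norm_num), Real.inv_rpow (by positivity),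
                  ← Real.rpow_neg (by positivity), ha]
            _ ≤ a * 6 := by
                apply mul_le_mul_of_nonneg_left _ ha0.le
                calc (6 : ℝ) ^ (5 / 48 : ℝ) ≤ (6 : ℝ) ^ (1 : ℝ) :=
                      Real.rpow_le_rpow_of_exponent_le (by norm_num) (by norm_num)
                  _ = 6 := Real.rpow_one _
            _ = 6 * a := by ring
        have k6 : arm p (m / 3) ≤ (C1 * 12) * a := by
          refine k2.trans ?_
          have := mul_le_mul_of_nonneg_left (add_le_add k4 k5) hC1.le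
          linarith
        calc thetaTwo p x ≤ _ := k1
          _ ≤ 2 ^ 188 * ((C1 * 12) * a * (C2 * σ)) := by
              apply mul_le_mul_of_nonneg_left _ (by positivity)
              exact mul_le_mul k6 k3 (theta_nonneg p) (by positivity)
          _ = 2 ^ 188 * (C1 * 12) * C2 * (a * σ) := by ring
          _ ≤ K * (a * σ) := mul_le_mul_of_nonneg_right hKa haσ
      · have k1 := (two_le_theta p x).trans (h2 p hp)
        rw [← hs, ← hσ] at k1
        have k2 : 1 / 3 ≤ a := by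
          have hm2 : (m : ℝ) ≤ 2 := by
            have : m ≤ 2 := by omega
            exact_mod_cast this
          calc (1 / 3 : ℝ) = (3 : ℝ) ^ (-1 : ℝ) := by rw [Real.rpow_neg_one]; norm_num
            _ ≤ (3 : ℝ) ^ (-(5 / 48) : ℝ) :=
                Real.rpow_le_rpow_of_exponent_le (by norm_num) (by norm_num)
            _ ≤ a := by
                rw [ha]
                exact Real.rpow_le_rpow_of_nonpos (by positivity) (by linarith) (by norm_num)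
        have k3 : C2 * σ ≤ 3 * C2 * (a * σ) := by
          have := mul_le_mul_of_nonneg_left k2 (by positivity : 0 ≤ 3 * (C2 * σ))
          linarith
        exact k1.trans (k3.trans (mul_le_mul_of_nonneg_right hKb haσ))
    have k7 : 1 ≤ Real.exp c * Real.exp (-(c * (m * t))) := by
      rw [← Real.exp_add]
      apply Real.one_le_exp
      nlinarith
    have := sq_nonneg (theta p)
    calc thetaTwo p x - theta p ^ 2 ≤ K * (a * σ) := by linarith
      _ = K * (a * σ) * 1 := (mul_one _).symm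
      _ ≤ K * (a * σ) * (Real.exp c * Real.exp (-(c * (m * t)))) :=
          mul_le_mul_of_nonneg_left k7 (mul_nonneg hK0.le haσ)
      _ = (K * Real.exp c) * (a * σ) * Real.exp (-(c * (m * t))) := by ring
      _ ≤ _ := by
          apply mul_le_mul_of_nonneg_right _ hex.le
          apply mul_le_mul_of_nonneg_right _ haσ
          linarith
  · push Not at hcase
    have ht00 : 0 < t := by
      rcases ht0.eq_or_lt with h | h
      · exfalso
        rw [← h, mul_zero] at hcase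
        linarith
      · exact h
    have k1 : a ≤ σ := by
      rw [← hσt, ha]
      have e1 : t⁻¹ ≤ (m : ℝ) + 1 := by
        rw [inv_le_comm₀ ht00 (by linarith), ← one_div, div_le_iff₀ (by linarith)]
        nlinarith
      calc ((m : ℝ) + 1) ^ (-(5 / 48) : ℝ) ≤ (t⁻¹) ^ (-(5 / 48) : ℝ) :=
            Real.rpow_le_rpow_of_nonpos (by positivity) e1 (by norm_num)
        _ = t ^ (5 / 48 : ℝ) := by
            rw [Real.inv_rpow ht0, ← Real.rpow_neg ht0, neg_neg]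
    calc thetaTwo p x - theta p ^ 2 ≤ _ := g0
      _ ≤ C * (a * σ) * Real.exp (-(c * (m * t))) := by
          apply mul_le_mul_of_nonneg_right _ hex.le
          apply mul_le_mul_of_nonneg_left _ hC.le
          rw [sq]
          exact mul_le_mul_of_nonneg_left k1 ha0.le
      _ ≤ _ := by
          apply mul_le_mul_of_nonneg_right _ hex.le
          apply mul_le_mul_of_nonneg_right _ haσ
          have : 0 < K * Real.exp c := by positivity
          linarith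

end Q291.TT
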