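import Pool.Agent.Q291.SA.FinC
import Pool.Agent.W424.NC.TwoLow

/-!
Two-point functions of bond percolation on the square lattice above the critical point: the
estimates in finite boxes (by helper291).
-/

set_option maxHeartbeats 400000

namespace Q291.TT

open Finset H974 Pool.Agent.H160R2.CV Pool.Agent.H160R2.CV.Quad H362P Pool.Agent.Y244.PC Q291.CS
open Q291.SA

variable {q : ℝ}

/-- the two vertices are connected and reach far away -/
theorem pr_join (h0 : 0 ≤ q) (h1 : q ≤ 1) {x : Vtx} {r R N : ℕ} (hx : nv x ≤ r) (hr : r < R)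
    (hR : R ≤ N) {S : Finset Edg} (hS : boxE N ⊆ S) (hS2 : boxE (2 * R + r) ⊆ S) :
    arm q N * (arm q (2 * R) * Pr (fun _ => q) S (CA 0 r R)) ≤
      Pr (fun _ => q) S (fun F => Reach (↑F) (0, 0) x ∧ Far 0 N F) := by
  have ok := okq h0 h1
  have p1 : arm q N ≤ Pr (fun _ => q) S (Far 0 N) := by
    apply far_prob h0 h1
    refine Finset.Subset.trans ?_ hS
    apply bo_sub_box
    have : nv (0 : Vtx) = 0 := rfl
    omega
  have p2 : arm q (2 * R) ≤ Pr (fun _ => q) S (Far x (2 * R)) := by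
    apply far_prob h0 h1
    refine Finset.Subset.trans ?_ hS2
    apply bo_sub_box
    omega
  have iF : ∀ (v : Vtx) (m : ℕ), IncrE S (Far v m) := by
    rintro v m F G h _ ⟨u, hu, hr⟩
    exact ⟨u, hu, hr.mono (by exact_mod_cast h)⟩
  have iC : IncrE S (CA 0 r R) := CA_incr _ _ _ _
  have iFC : IncrE S (fun F => Far x (2 * R) F ∧ CA 0 r R F) :=
    fun F G h hG hF => ⟨iF x _ F G h hG hF.1, iC F G h hG hF.2⟩
  have r1 := Pr_harris ok (iF x (2 * R)) iC
  have r2 := Pr_harris ok (iF 0 N) iFC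
  have e1 : arm q (2 * R) * Pr (fun _ => q) S (CA 0 r R) ≤
      Pr (fun _ => q) S (fun F => Far x (2 * R) F ∧ CA 0 r R F) :=
    (mul_le_mul_of_nonneg_right p2 (Pr_nonneg ok _ _)).trans r1
  have e2 := mul_le_mul p1 e1 (mul_nonneg (arm_nonneg h0 h1 _) (Pr_nonneg ok _ _))
    (Pr_nonneg ok _ _)
  refine (e2.trans r2).trans ?_
  apply Pr_mono ok
  rintro F _ ⟨⟨u0, hu0, hr0⟩, ⟨v, hv, hrv⟩, hC⟩
  refine ⟨?_, u0, hu0, hr0⟩
  obtain ⟨z, hz⟩ := CA_meet hr hC
  have h0z : Reach (↑F) 0 z := by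
    apply hz 0 u0 (by rw [sub_zero]; exact Nat.zero_le _) (hR.trans hu0) hr0
  have hxz : Reach (↑F) x z := by
    apply hz x v (by rw [sub_zero]; exact hx) _ hrv
    rw [sub_zero]
    have := nv_tri v 0 x
    rw [sub_zero, zero_sub, nv_neg] at this
    omega
  exact h0z.trans hxz.symm

/-- two distant vertices with long arms -/
theorem pr_both_sq (h0 : 0 ≤ q) (h1 : q ≤ 1) (S : Finset Edg) {x : Vtx} {r : ℕ}
    (hr : 2 * r + 1 ≤ nv x) :
    Pr (fun _ => q) S (fun F => LA 0 r F ∧ LA x r F) ≤ arm q r ^ 2 := by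
  have hok := okq h0 h1
  have hd : Disjoint (bo (0 : Vtx) r) (bo x r) := by
    apply bo_disj
    rw [zero_sub, nv_neg]
    omega
  have s2 := indep2q h0 h1 S (bo (0 : Vtx) r) (bo x r) hd (LA_inc 0 r) (LA_inc x r)
    (LA_loc (Finset.Subset.refl _)) (LA_loc (Finset.Subset.refl _))
  have s3 := pr_LAq h0 h1 (bo (0 : Vtx) r) 0 r
  have s4 := pr_LAq h0 h1 (bo x r) x r
  refine s2.trans ?_
  calc _ ≤ arm q r * arm q r := mul_le_mul s3 s4 (Pr_nonneg hok _ _) (arm_nonneg h0 h1 r)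
    _ = _ := by ring

/-- two distant vertices with arms to the boundary of a large box -/
theorem pr_both (hq : 1 / 2 ≤ q) (h1 : q ≤ 1) {x : Vtx} {r N : ℕ} (hr1 : 1 ≤ r)
    (hr : 3 * r ≤ nv x) (hN : 2 * nv x ≤ N) {S : Finset Edg} (hS : boxE N ⊆ S) :
    Pr (fun _ => q) S (GT {w | N ≤ nv w} {x, 0}) ≤ 2 ^ 188 * (arm q r * arm q N) := by
  have h0 : 0 ≤ q := by linarith
  have ok := okq h0 h1
  have s1 := rec1 hq h1 (T := {w | N ≤ nv w}) (X := {(0 : Vtx)}) (x := x) (r := r) hr1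
    (by
      intro u hu
      rw [Finset.mem_singleton] at hu
      rw [hu, zero_sub, nv_neg]
      exact hr)
    (by
      intro w hw
      have hw' : N ≤ nv w := hw
      have := nv_tri w x 0
      rw [sub_zero, sub_zero] at this
      omega) (S := S)
    (by
      refine Finset.Subset.trans ?_ hS
      apply bo_sub_box
      omega)
  refine s1.trans ?_
  have s2 : Pr (fun _ => q) S (GT {w | N ≤ nv w} {(0 : Vtx)}) ≤ arm q N := by
    refine le_trans (Pr_mono ok ?_) (pr_LAq h0 h1 S 0 N)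
    intro F _ hF
    obtain ⟨w, hw, hw2⟩ := hF 0 (Finset.mem_singleton_self _)
    apply LA_of_reach (u := w) _ hw2
    rw [sub_zero]
    exact hw
  have p1 : 0 ≤ arm q r := arm_nonneg h0 h1 r
  have := mul_le_mul_of_nonneg_left s2 p1
  nlinarith

/-- connected and finite: the lower bound -/
theorem pr_tf_low : ∃ c C : ℝ, 0 < c ∧ 0 < C ∧ ∀ (q : ℝ) (x : Vtx) (m : ℕ), 1 / 2 ≤ q → q ≤ 3 / 4 →
    1 ≤ m → nv x ≤ m →
    c * (m : ℝ) ^ (-(5 / 24) : ℝ) * Real.exp (-(C * (m * (q - 1 / 2) ^ (4 / 3 : ℝ)))) ≤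
      Pr (fun _ => q) (boxE (10 * m)) (fun F => Reach (↑F) (0, 0) x ∧
        Blk ((5 * m : ℕ) : ℤ) ((10 * m : ℕ) : ℤ) F) := by
  obtain ⟨c1, C1, hc1, hC1, hblk⟩ := pr_Blk_low
  obtain ⟨κ, b, hκ, hb, harm⟩ := Pool.Agent.W424.NC.armS
  obtain ⟨c2, C2, hc2, _, hcrit⟩ := Pool.Agent.W424.NC.arm_crit
  obtain ⟨κ', hκ'⟩ : ∃ κ' : ℝ, κ' = (κ * Real.exp (-(2 * Real.log (1 / κ)) * 5)) ^ 2 := ⟨_, rfl⟩
  have hκ'0 : 0 < κ' := by rw [hκ']; positivity
  refine ⟨c2 ^ 2 * (2 : ℝ) ^ (-(5 / 24) : ℝ) * κ ^ 8 * κ' * c1, C1, by positivity, hC1, ?_⟩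
  intro q x m hq hq2 hm hx
  have h1 : q ≤ 1 := by linarith
  have h0 : 0 ≤ q := by linarith
  have ok := okq h0 h1
  have hm0 : (0 : ℝ) < m := by exact_mod_cast hm
  have hW := (harm (2 * m) (by omega) (1 / 2) (by
    rw [sub_self, abs_zero]; positivity)).1
  have hWm := (harm m (by omega) (1 / 2) (by
    rw [sub_self, abs_zero]; positivity)).1
  have hx' : |x.1| ≤ (m : ℤ) ∧ |x.2| ≤ (m : ℤ) := by
    unfold nv at hx
    rw [Int.abs_eq_natAbs, Int.abs_eq_natAbs]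
    omega
  have t1 := Pool.Agent.W424.NC.two_far hW hm le_rfl (x1 := x.1) (x2 := x.2) hx'.1 hx'.2
  have t2 := Pool.Agent.W424.NC.hh_exp hWm hm (n := 5 * m) (by omega)
  have e5 : ((5 * m : ℕ) : ℝ) / m = 5 := by push_cast; field_simp
  rw [e5] at t2
  have t3 : κ' ≤ (hh (1 / 2) ((5 * m : ℕ) : ℤ) m) ^ 2 := by
    rw [hκ']
    exact pow_le_pow_left₀ (by positivity) t2 2
  have t4 := (hcrit (2 * m) (by omega)).1
  have t5 : c2 ^ 2 * (2 : ℝ) ^ (-(5 / 24) : ℝ) * (m : ℝ) ^ (-(5 / 24) : ℝ) ≤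
      arm (1 / 2) (2 * m) ^ 2 := by
    have g := pow_le_pow_left₀ (by positivity) t4 2
    have e : (c2 * ((2 * m : ℕ) : ℝ) ^ (-(5 / 48) : ℝ)) ^ 2 =
        c2 ^ 2 * (2 : ℝ) ^ (-(5 / 24) : ℝ) * (m : ℝ) ^ (-(5 / 24) : ℝ) := by
      rw [mul_pow, ← Real.rpow_natCast (((2 * m : ℕ) : ℝ) ^ (-(5 / 48) : ℝ)) 2,
        ← Real.rpow_mul (by positivity)]
      push_cast
      rw [Real.mul_rpow (by norm_num) hm0.le]
      norm_num
      ring
    rw [e] at g
    exact g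
  -- the connection in the small box
  have hP : c2 ^ 2 * (2 : ℝ) ^ (-(5 / 24) : ℝ) * κ ^ 8 * κ' * (m : ℝ) ^ (-(5 / 24) : ℝ) ≤
      Pr (fun _ => q) (boxE (10 * m)) (fun F => Reach (↑(F ∩ boxE (5 * m))) (0, 0) x) := by
    have inc : ∀ S : Finset Edg, IncrE S (fun F => Reach (↑(F ∩ boxE (5 * m))) (0, 0) x) := by
      intro S F G h _ hF
      exact hF.mono (by exact_mod_cast Finset.inter_subset_inter_right h)
    have u1 : Pr (fun _ => (1 / 2 : ℝ)) (boxE (3 * m)) (TP (x.1, x.2)) ≤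
        Pr (fun _ => (1 / 2 : ℝ)) (boxE (3 * m))
          (fun F => Reach (↑(F ∩ boxE (5 * m))) (0, 0) x) := by
      apply Pr_mono (okq (by norm_num) (by norm_num))
      intro F hF hT
      have e : F ∩ boxE (5 * m) = F :=
        Finset.inter_eq_left.mpr (hF.trans (boxE_mono (by omega)))
      show Reach (↑(F ∩ boxE (5 * m))) (0, 0) x
      rw [e]
      exact hT
    have u2 : Pr (fun _ => (1 / 2 : ℝ)) (boxE (3 * m))
          (fun F => Reach (↑(F ∩ boxE (5 * m))) (0, 0) x) ≤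
        Pr (fun _ => (1 / 2 : ℝ)) (boxE (10 * m))
          (fun F => Reach (↑(F ∩ boxE (5 * m))) (0, 0) x) :=
      Pr_mono_set (okq (by norm_num) (by norm_num)) (boxE_mono (by omega)) (inc _)
    have u3 : Pr (fun _ => (1 / 2 : ℝ)) (boxE (10 * m))
          (fun F => Reach (↑(F ∩ boxE (5 * m))) (0, 0) x) ≤
        Pr (fun _ => q) (boxE (10 * m))
          (fun F => Reach (↑(F ∩ boxE (5 * m))) (0, 0) x) :=
      Pr_mono_param (okq (by norm_num) (by norm_num)) ok (fun _ => hq) (inc _)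
    refine le_trans ?_ ((t1.trans u1).trans (u2.trans u3))
    have v1 := mul_le_mul (mul_le_mul_of_nonneg_right t5 (by positivity : 0 ≤ κ ^ 8)) t3
      hκ'0.le (by positivity)
    refine le_trans (le_of_eq ?_) v1
    ring
  have hbl := hblk q m hq hq2 hm (boxE (10 * m)) (by unfold annE; exact Finset.sdiff_subset)
  have hind : Pr (fun _ => q) (boxE (10 * m))
      (fun F => Reach (↑(F ∩ boxE (5 * m))) (0, 0) x ∧
        Blk ((5 * m : ℕ) : ℤ) ((10 * m : ℕ) : ℤ) F) =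
      Pr (fun _ => q) (boxE (10 * m)) (fun F => Reach (↑(F ∩ boxE (5 * m))) (0, 0) x) *
        Pr (fun _ => q) (boxE (10 * m)) (Blk ((5 * m : ℕ) : ℤ) ((10 * m : ℕ) : ℤ)) := by
    apply Pr_indep (S := boxE (5 * m)) (T := annE (5 * m) (10 * m)) (boxE_mono (by omega))
      (by unfold annE; exact Finset.sdiff_subset)
      (by unfold annE; exact Finset.disjoint_sdiff)
    · intro F _
      rw [Finset.inter_assoc, Finset.inter_self]
    · intro F _
      exact Blk_local (by omega) (Finset.Subset.refl _) F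
  have hfin := mul_le_mul hP hbl (by positivity) (Pr_nonneg ok _ _)
  rw [← hind] at hfin
  refine le_trans (le_of_eq ?_) (hfin.trans ?_)
  · ring
  · apply Pr_mono ok
    rintro F _ ⟨g1, g2⟩
    exact ⟨g1.mono (by exact_mod_cast Finset.inter_subset_left), g2⟩

end Q291.TT
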