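import Pool.Agent.Q291.TT.Fin
import Pool.Agent.W424.NC.Corr

/-!
Two-point functions of bond percolation on the square lattice above the critical point: the
infinite volume (by helper291).
-/

set_option maxHeartbeats 400000

namespace Q291.TT

open Finset H974 Pool.Agent.H160R2.CV Pool.Agent.H160R2.CV.Quad H362P Pool.Agent.Y244.PC Q291.CS
open Q291.SA MeasureTheory Filter

/-- The open cluster of the vertex `x`. -/
def clusterAt (ω : sqLattice.edgeSet → Bool) (x : ℤ × ℤ) : Set (ℤ × ℤ) :=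
  {v | (openGraph ω).Reachable x v}

/-- The probability that `x` belongs to the cluster of the origin and this cluster is finite. -/
noncomputable def tauf (p : unitInterval) (x : ℤ × ℤ) : ℝ :=
  (bondLaw p).real {ω | x ∈ cluster0 ω ∧ (cluster0 ω).Finite}

/-- The probability that the clusters of the origin and of `x` are both infinite. -/
noncomputable def thetaTwo (p : unitInterval) (x : ℤ × ℤ) : ℝ :=
  (bondLaw p).real {ω | (cluster0 ω).Infinite ∧ (clusterAt ω x).Infinite}

/-- `x` belongs to the infinite cluster of the origin -/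
noncomputable def ti (p : unitInterval) (x : ℤ × ℤ) : ℝ :=
  (bondLaw p).real {ω | x ∈ cluster0 ω ∧ (cluster0 ω).Infinite}

theorem tau_split (p : unitInterval) (x : Vtx) : H31K.tau p x = tauf p x + ti p x := by
  unfold H31K.tau tauf ti
  have h := measureReal_inter_add_sdiff (μ := bondLaw p) (s := {ω | x ∈ cluster0 ω}) meas_fin
    (measure_ne_top _ _)
  rw [← h]
  rfl

theorem ti_le_two (p : unitInterval) (x : Vtx) : ti p x ≤ thetaTwo p x := by
  unfold ti thetaTwo
  refine measureReal_mono ?_ (measure_ne_top _ _)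
  rintro ω ⟨h1, h2⟩
  refine ⟨h2, ?_⟩
  have e : clusterAt ω x = cluster0 ω := by
    ext v
    constructor
    · intro hv
      exact SimpleGraph.Reachable.trans h1 hv
    · intro hv
      exact SimpleGraph.Reachable.trans (SimpleGraph.Reachable.symm h1) hv
  rw [e]
  exact h2

theorem two_le (p : unitInterval) {x : Vtx} {L : ℕ} (hx : nv x ≤ L) :
    thetaTwo p x ≤ Pr (fun _ => (p : ℝ)) (boxE L) (GT {w | L ≤ nv w} {x, 0}) := by
  rw [← law_event p (boxE L) (GT {w | L ≤ nv w} {x, 0})]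
  unfold thetaTwo
  refine measureReal_mono ?_ (measure_ne_top _ _)
  have key : ∀ (ω : sqLattice.edgeSet → Bool) (y : Vtx), nv y ≤ L → (clusterAt ω y).Infinite →
      ∃ w ∈ {w : Vtx | L ≤ nv w}, Reach (↑(FF (boxE L) ω)) y w := by
    intro ω y hy hinf
    have h1 : ∃ v ∈ clusterAt ω y, v ∉ (↑(bx L) : Set Vtx) := by
      by_contra hcon
      push Not at hcon
      exact hinf ((bx L).finite_toSet.subset hcon)
    obtain ⟨v, hv, hvL⟩ := h1
    have hvL' : ¬ nv v ≤ L := by
      rw [← mem_bx]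
      exact_mod_cast hvL
    have hr : Reach (opn ω) y v := (open_reach ω _ _).mp hv
    obtain ⟨w', k1, k2, k3⟩ := first_exit (a := -(L : ℤ)) (b := (L : ℤ))
      (c := -(L : ℤ)) (d := (L : ℤ)) (u := y)
      (by unfold inR; unfold nv at hy; omega) hr (by
        unfold nv at hvL'
        omega)
    refine ⟨w', ?_, ?_⟩
    · show L ≤ nv w'
      unfold nv
      omega
    · rw [FF_coe]
      exact k3
  rintro ω ⟨h1, h2⟩
  show GT {w | L ≤ nv w} {x, 0} (FF (boxE L) ω)
  intro u hu
  rw [Finset.mem_insert, Finset.mem_singleton] at hu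
  rcases hu with rfl | rfl
  · exact key ω _ hx h2
  · exact key ω 0 (Nat.zero_le _) h1

theorem ti_ge (p : unitInterval) (x : Vtx) {c : ℝ} (h : ∀ N : ℕ, ∃ L : ℕ,
    c ≤ Pr (fun _ => (p : ℝ)) (boxE L) (fun F => Reach (↑F) (0, 0) x ∧ Far 0 N F)) :
    c ≤ ti p x := by
  set En : ℕ → Set (sqLattice.edgeSet → Bool) :=
    fun n => {ω | x ∈ cluster0 ω} ∩ ArmE n with hEn
  have e : {ω : sqLattice.edgeSet → Bool | x ∈ cluster0 ω ∧ (cluster0 ω).Infinite} =
      ⋂ n : ℕ, En n := by
    ext ω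
    rw [Set.mem_iInter]
    constructor
    · rintro ⟨h1, h2⟩ n
      exact ⟨h1, (infinite_iff ω).mp h2 n⟩
    · intro h1
      exact ⟨(h1 0).1, (infinite_iff ω).mpr fun n => (h1 n).2⟩
  have hm : Antitone En := by
    rintro n n' hnn ω ⟨h1, h2⟩
    exact ⟨h1, armE_anti hnn h2⟩
  have hmeas : ∀ n, NullMeasurableSet (En n) (bondLaw p) := by
    intro n
    exact ((H31K.t10_meas x).inter (meas_event _ _)).nullMeasurableSet
  have h1 := tendsto_measure_iInter_atTop (μ := bondLaw p) hmeas hm ⟨0, measure_ne_top _ _⟩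
  rw [← e] at h1
  have h2 : Tendsto (fun n : ℕ => (bondLaw p).real (En n)) atTop (nhds (ti p x)) :=
    (ENNReal.tendsto_toReal (measure_ne_top _ _)).comp h1
  refine ge_of_tendsto' h2 (fun n => ?_)
  obtain ⟨L, hL⟩ := h n
  refine hL.trans ?_
  rw [← law_event p (boxE L) (fun F => Reach (↑F) (0, 0) x ∧ Far 0 n F)]
  refine measureReal_mono ?_ (measure_ne_top _ _)
  rintro ω ⟨g1, u, hu, g2⟩
  have g1' : Reach (↑(FF (boxE L) ω)) (0, 0) x := g1
  have g2' : Reach (↑(FF (boxE L) ω)) (0, 0) u := g2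
  rw [FF_coe] at g1' g2'
  refine ⟨(mem_cl ω x).mpr (g1'.mono Set.inter_subset_left), ?_⟩
  rw [armE_iff]
  rw [sub_zero] at hu
  obtain ⟨w', k1, k2, k3⟩ := first_exit (a := -(n : ℤ)) (b := (n : ℤ))
    (c := -(n : ℤ)) (d := (n : ℤ)) (u := (0, 0))
    (by unfold inR; simp only; omega) (g2'.mono Set.inter_subset_left) (by
      unfold nv at hu
      omega)
  exact ⟨w', ⟨k1, k2⟩, k3⟩

theorem tau_sq (p : unitInterval) (x : Vtx) : H31K.tau p x ≤ arm p (nv x / 3) ^ 2 := by
  refine le_of_tendsto' (Pool.Agent.W424.NC.tau_tendsto p x) (fun N => ?_)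
  refine le_trans (Pr_mono (okq p.2.1 p.2.2) ?_) (pr_two p.2.1 p.2.2 (boxE N) x)
  intro F _ hF u hu
  rw [Finset.mem_singleton] at hu
  rw [hu]
  exact ⟨0, rfl, Reach.symm hF⟩

theorem arm_split (p : unitInterval) (n : ℕ) : arm p n ≤ theta p + rf p n := by
  rw [← law_armE, rf_eq]
  unfold theta
  refine le_trans (measureReal_mono ?_ (measure_ne_top _ _)) (measureReal_union_le _ _)
  intro ω hω
  by_cases h : (cluster0 ω).Finite
  · right
    refine ⟨?_, h⟩
    rw [armE_iff] at hω
    obtain ⟨v, hv, hr⟩ := hω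
    refine ⟨v, hr.mono Set.inter_subset_left, ?_⟩
    obtain ⟨-, h2⟩ := hv
    unfold nv
    omega
  · left
    exact h

theorem two_sq (p : unitInterval) {x : Vtx} {r : ℕ} (hr : 2 * r + 1 ≤ nv x) :
    thetaTwo p x ≤ arm p r ^ 2 := by
  refine (two_le p (L := 2 * nv x) (by omega)).trans ?_
  refine le_trans (Pr_mono (okq p.2.1 p.2.2) ?_) (pr_both_sq p.2.1 p.2.2 _ hr)
  intro F _ hF
  obtain ⟨w, hw, h1⟩ := hF 0 (by simp)
  obtain ⟨w', hw', h1'⟩ := hF x (by simp)
  have hw2 : 2 * nv x ≤ nv w := hw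
  have hw2' : 2 * nv x ≤ nv w' := hw'
  refine ⟨LA_of_reach (u := w) ?_ h1, LA_of_reach (u := w') ?_ h1'⟩
  · rw [sub_zero]
    omega
  · have := nv_tri w' x 0
    rw [sub_zero, sub_zero] at this
    omega

theorem two_mul (p : unitInterval) (hp : (1 / 2 : ℝ) ≤ p) {x : Vtx} {r : ℕ} (hr1 : 1 ≤ r)
    (hr : 3 * r ≤ nv x) : thetaTwo p x ≤ 2 ^ 188 * (arm p r * theta p) := by
  have ha : 0 < arm p r := Pool.Agent.W424.NC.arm_pos (by linarith) p.2.2 _
  have h : thetaTwo p x / (2 ^ 188 * arm p r) ≤ theta p := by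
    apply le_theta
    intro n
    rw [div_le_iff₀ (by positivity)]
    have h1 := (two_le p (x := x) (L := max (2 * nv x) n) (by omega)).trans
      (pr_both hp p.2.2 hr1 hr (le_max_left _ _) (Finset.Subset.refl _))
    have h2 : arm p (max (2 * nv x) n) ≤ arm p n := by
      rw [← law_armE, ← law_armE]
      exact measureReal_mono (armE_anti (le_max_right _ _)) (measure_ne_top _ _)
    have h3 := mul_le_mul_of_nonneg_left h2 (by positivity : 0 ≤ 2 ^ 188 * arm p r)
    calc thetaTwo p x ≤ _ := h1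
      _ = 2 ^ 188 * arm p r * arm p (max (2 * nv x) n) := by ring
      _ ≤ _ := h3
      _ = _ := by ring
  rw [div_le_iff₀ (by positivity)] at h
  linarith

theorem two_le_theta (p : unitInterval) (x : Vtx) : thetaTwo p x ≤ theta p := by
  unfold thetaTwo theta
  exact measureReal_mono (fun ω h => h.1) (measure_ne_top _ _)

end Q291.TT
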