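import Pool.Agent.Q291.TT.Bd

/-!
Two-point functions of bond percolation on the square lattice above the critical point: the
lower bounds (by helper291).
-/

set_option maxHeartbeats 400000

namespace Q291.TT

open Finset H974 Pool.Agent.H160R2.CV Pool.Agent.H160R2.CV.Quad H362P Pool.Agent.Y244.PC Q291.CS
open Q291.SA MeasureTheory Filter

theorem pr_CA0 (q : ℝ) (r R n : ℕ) :
    Pr (fun _ => q) (boxE n) (CA 0 r R) = Pr (fun _ => q) (boxE n) (Circ r ((R : ℕ) : ℤ)) := by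
  have h0 : Pr (fun _ => q) (boxE n) (CA 0 r R) =
      Pr (fun _ => q) ((trl (-(0 : Vtx).1) (-(0 : Vtx).2)).mp (boxE n)) (Circ r ((R : ℕ) : ℤ)) :=
    (LSym.pr (trl (-(0 : Vtx).1) (-(0 : Vtx).2)) q (boxE n) _).symm
  have e : (trl (-(0 : Vtx).1) (-(0 : Vtx).2)).mp (boxE n) = boxE n := by
    unfold boxE
    rw [trl_RE]
    congr 1 <;> simp
  rw [h0, e]

theorem far_mono {v : Vtx} {r r' : ℕ} (h : r ≤ r') {F : Finset Edg} (hF : Far v r' F) :
    Far v r F := by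
  obtain ⟨u, hu, hr⟩ := hF
  exact ⟨u, h.trans hu, hr⟩

/-- uniqueness of the infinite cluster: the two-point function dominates the square of the
percolation probability -/
theorem theta_sq_le (p : unitInterval) (hp : (1 / 2 : ℝ) ≤ p) (x : Vtx) :
    theta p ^ 2 ≤ ti p x := by
  have hti : 0 ≤ ti p x := measureReal_nonneg
  rcases hp.eq_or_lt with h | h
  · rw [theta_half_le h.symm.le]
    simpa using hti
  obtain ⟨E, hE, hfar⟩ := Pool.Agent.W424.NC.farS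
  obtain ⟨M, hM⟩ := exists_nat_ge (max (E * ((p : ℝ) - 1 / 2) ^ (-(4 / 3 : ℝ)))
    (max 2 (nv x : ℝ)))
  have hM1 : E * ((p : ℝ) - 1 / 2) ^ (-(4 / 3 : ℝ)) ≤ M := (le_max_left _ _).trans hM
  have hM2 : 2 ≤ M := by
    have := (le_max_left _ _).trans ((le_max_right _ _).trans hM)
    exact_mod_cast this
  have hMx : nv x ≤ M := by
    have := (le_max_right _ _).trans ((le_max_right _ _).trans hM)
    exact_mod_cast this
  have he := hfar p h p.2.2 M hM1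
  have hth0 := theta_nonneg p
  have key : ∀ j : ℕ, theta p ^ 2 * (1 - (4 / 5) * (1 / 4 : ℝ) ^ j) ≤ ti p x := by
    intro j
    apply ti_ge
    intro N
    obtain ⟨r, hr⟩ : ∃ r : ℕ, r = 2 ^ j * M := ⟨_, rfl⟩
    have hrM : M ≤ r := by rw [hr]; exact Nat.le_mul_of_pos_left _ (by positivity)
    have her := H31K.eps_pow2 p.2.1 p.2.2 hM2 he j
    rw [← hr] at her
    have hq4 : ((1 : ℝ) / 4) ^ (2 ^ j) ≤ (1 / 4) ^ j :=
      pow_le_pow_of_le_one (by norm_num) (by norm_num) Nat.lt_two_pow_self.le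
    have hq5 : ((1 : ℝ) / 4) ^ (2 ^ j) ≤ 1 / 4 := by
      calc ((1 : ℝ) / 4) ^ (2 ^ j) ≤ (1 / 4) ^ 1 :=
            pow_le_pow_of_le_one (by norm_num) (by norm_num) Nat.one_le_two_pow
        _ = 1 / 4 := pow_one _
    obtain ⟨L, hL⟩ : ∃ L : ℕ, L = max N (5 * r) := ⟨_, rfl⟩
    have hNL : N ≤ L := by rw [hL]; exact le_max_left _ _
    have hrL : 5 * r ≤ L := by rw [hL]; exact le_max_right _ _
    refine ⟨L, ?_⟩
    have h1 := pr_join p.2.1 p.2.2 (x := x) (r := r) (R := 2 * r) (N := L) (hMx.trans hrM)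
      (by omega) (by omega) (S := boxE L) (Finset.Subset.refl _) (boxE_mono (by omega))
    have h2 := pr_Circ_far p.2.1 p.2.2 (N := r) (hM2.trans hrM) (by linarith)
      (S := boxE L) (boxE_mono (by omega))
    rw [pr_CA0] at h1
    have h3 := theta_le_arm p L
    have h4 := theta_le_arm p (2 * (2 * r))
    have h5 : 1 - (4 / 5) * (1 / 4 : ℝ) ^ j ≤
        Pr (fun _ => (p : ℝ)) (boxE L) (Circ r ((2 * r : ℕ) : ℤ)) := by
      refine le_trans ?_ h2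
      linarith
    have h6 : 0 ≤ 1 - (4 / 5) * (1 / 4 : ℝ) ^ j := by
      have : (1 / 4 : ℝ) ^ j ≤ 1 := pow_le_one₀ (by norm_num) (by norm_num)
      linarith
    have h7 := mul_le_mul h3 (mul_le_mul h4 h5 h6 (hth0.trans h4))
      (mul_nonneg hth0 h6) (hth0.trans h3)
    refine le_trans (le_of_eq (by ring)) (h7.trans (h1.trans ?_))
    apply Pr_mono (okq p.2.1 p.2.2)
    rintro F _ ⟨g1, g2⟩
    exact ⟨g1, far_mono hNL g2⟩
  have hlim : Tendsto (fun j : ℕ => theta p ^ 2 * (1 - (4 / 5) * (1 / 4 : ℝ) ^ j)) atTop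
      (nhds (theta p ^ 2 * (1 - (4 / 5) * 0))) := by
    apply Tendsto.const_mul
    apply Tendsto.const_sub
    apply Tendsto.const_mul
    exact tendsto_pow_atTop_nhds_zero_of_lt_one (by norm_num) (by norm_num)
  rw [mul_zero, sub_zero, mul_one] at hlim
  exact le_of_tendsto' hlim key

/-- two vertices near each other in the infinite cluster -/
theorem ti_low : ∃ c : ℝ, 0 < c ∧ ∀ p : unitInterval, (1 / 2 : ℝ) ≤ p → ∀ x : Vtx,
    c * ((nv x : ℝ) + 1) ^ (-(5 / 48) : ℝ) * theta p ≤ ti p x := by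
  obtain ⟨c1, hc1, hc11, harm⟩ := arm_low
  have hka := kap_pos
  refine ⟨c1 * (2 : ℝ) ^ (-(5 / 48) : ℝ) * kap, by positivity, fun p hp x => ?_⟩
  apply ti_ge
  intro N
  obtain ⟨r, hr⟩ : ∃ r : ℕ, r = nv x + 1 := ⟨_, rfl⟩
  obtain ⟨L, hL⟩ : ∃ L : ℕ, L = max N (7 * r) := ⟨_, rfl⟩
  have hNL : N ≤ L := by rw [hL]; exact le_max_left _ _
  have hrL : 7 * r ≤ L := by rw [hL]; exact le_max_right _ _
  refine ⟨L, ?_⟩
  have h1 := pr_join p.2.1 p.2.2 (x := x) (r := r) (R := 3 * r) (N := L) (by omega)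
      (by omega) (by omega) (S := boxE L) (Finset.Subset.refl _) (boxE_mono (by omega))
  have h2 : kap ≤ Pr (fun _ => (p : ℝ)) (boxE L) (CA 0 r (3 * r)) := by
    unfold kap
    apply pr_CAq hp p.2.2 (by omega)
    apply bo_sub_box
    have : nv (0 : Vtx) = 0 := rfl
    omega
  have h3 := theta_le_arm p L
  have h4 := (harm p hp).1 (2 * r) (by omega)
  have h5 : arm p (4 * (2 * r)) ≤ arm p (2 * (3 * r)) := by
    rw [← law_armE, ← law_armE]
    exact measureReal_mono (armE_anti (by omega)) (measure_ne_top _ _)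
  have hth0 := theta_nonneg p
  have e1 : c1 * ((2 * r : ℕ) : ℝ) ^ (-(5 / 48) : ℝ) =
      c1 * (2 : ℝ) ^ (-(5 / 48) : ℝ) * ((nv x : ℝ) + 1) ^ (-(5 / 48) : ℝ) := by
    rw [hr]
    push_cast
    rw [Real.mul_rpow (by norm_num) (by positivity)]
    ring
  rw [e1] at h4
  have h6 := h4.trans h5
  have h7 := mul_le_mul h3 (mul_le_mul h6 h2 hka.le (le_trans (by positivity) h6))
    (by positivity) (hth0.trans h3)
  refine le_trans (le_of_eq (by ring)) (h7.trans (h1.trans ?_))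
  apply Pr_mono (okq p.2.1 p.2.2)
  rintro F _ ⟨g1, g2⟩
  exact ⟨g1, far_mono hNL g2⟩

/-- the covariance of the infinite cluster from below -/
theorem low_cov : ∃ c : ℝ, 0 < c ∧ ∀ p : unitInterval, (1 / 2 : ℝ) ≤ p → ∀ x : Vtx,
    ((nv x : ℝ) + 1) * ((p : ℝ) - 1 / 2) ^ (4 / 3 : ℝ) ≤ c →
    c * (((nv x : ℝ) + 1) ^ (-(5 / 48) : ℝ) * ((p : ℝ) - 1 / 2) ^ (5 / 36 : ℝ)) ≤
      thetaTwo p x - theta p ^ 2 := by
  obtain ⟨c1, hc1, h1⟩ := ti_low
  obtain ⟨c2, hc2, h2⟩ := theta_low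
  obtain ⟨C3, hC3, h3⟩ := theta_up
  obtain ⟨δ, hδ⟩ : ∃ δ : ℝ, δ = (c1 / (2 * C3)) ^ (48 / 5 : ℝ) := ⟨_, rfl⟩
  have hδ0 : 0 < δ := by rw [hδ]; positivity
  have hc0 : 0 < min δ (c1 / 2 * c2) := by positivity
  refine ⟨min δ (c1 / 2 * c2), hc0, fun p hp x hx => ?_⟩
  have g1 := h1 p hp x
  have g2 := h2 p hp
  have g3 := h3 p hp
  have g4 := ti_le_two p x
  obtain ⟨ht0, ht1⟩ := t_bd p hp
  obtain ⟨s, hs⟩ : ∃ s : ℝ, s = (p : ℝ) - 1 / 2 := ⟨_, rfl⟩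
  have hs0 : 0 ≤ s := by rw [hs]; linarith
  rw [← hs] at g2 g3 ht0 ht1 hx ⊢
  have hσt := pow_t hs0
  obtain ⟨t, ht⟩ : ∃ t : ℝ, t = s ^ (4 / 3 : ℝ) := ⟨_, rfl⟩
  obtain ⟨σ, hσ⟩ : ∃ σ : ℝ, σ = s ^ (5 / 36 : ℝ) := ⟨_, rfl⟩
  rw [← ht] at ht0 ht1 hx hσt
  rw [← hσ] at hσt g2 g3 ⊢
  have hσ0 : 0 ≤ σ := by rw [hσ]; positivity
  obtain ⟨a, ha⟩ : ∃ a : ℝ, a = ((nv x : ℝ) + 1) ^ (-(5 / 48) : ℝ) := ⟨_, rfl⟩
  have ha0 : 0 < a := by rw [ha]; positivity
  rw [← ha] at g1 ⊢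
  have hth0 := theta_nonneg p
  have k1 : C3 * σ ≤ c1 / 2 * a := by
    have hy : ((nv x : ℝ) + 1) * t ≤ δ := hx.trans (min_le_left _ _)
    have e1 : (((nv x : ℝ) + 1) * t) ^ (5 / 48 : ℝ) ≤ c1 / (2 * C3) := by
      calc (((nv x : ℝ) + 1) * t) ^ (5 / 48 : ℝ) ≤ δ ^ (5 / 48 : ℝ) :=
            Real.rpow_le_rpow (by positivity) hy (by norm_num)
        _ = c1 / (2 * C3) := by
            rw [hδ, ← Real.rpow_mul (by positivity)]
            norm_num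
    rw [Real.mul_rpow (by positivity) ht0, hσt] at e1
    have e2 : ((nv x : ℝ) + 1) ^ (5 / 48 : ℝ) * a = 1 := by
      rw [ha, ← Real.rpow_add (by positivity)]
      norm_num
    have e3 := mul_le_mul_of_nonneg_left e1 (by positivity : 0 ≤ C3 * a)
    calc C3 * σ = C3 * a * (((nv x : ℝ) + 1) ^ (5 / 48 : ℝ) * σ) := by
          rw [show C3 * a * (((nv x : ℝ) + 1) ^ (5 / 48 : ℝ) * σ) =
            C3 * σ * (((nv x : ℝ) + 1) ^ (5 / 48 : ℝ) * a) by ring, e2, mul_one]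
      _ ≤ C3 * a * (c1 / (2 * C3)) := e3
      _ = c1 / 2 * a := by field_simp
  have k2 : c1 / 2 * a * theta p ≤ thetaTwo p x - theta p ^ 2 := by
    have e1 : theta p ^ 2 ≤ c1 / 2 * a * theta p := by
      rw [sq]
      exact mul_le_mul_of_nonneg_right (g3.trans k1) hth0
    linarith
  refine le_trans ?_ k2
  calc min δ (c1 / 2 * c2) * (a * σ) ≤ (c1 / 2 * c2) * (a * σ) :=
        mul_le_mul_of_nonneg_right (min_le_right _ _) (by positivity)
    _ = c1 / 2 * a * (c2 * σ) := by ring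
    _ ≤ _ := mul_le_mul_of_nonneg_left g2 (by positivity)

theorem loc_tp (x : Vtx) : Loc (fun G => Reach G (0, 0) x) := by
  constructor
  · intro F G h hF
    exact hF.mono h
  · intro G n hG hF
    exact staySet hG hF

/-- the truncated two-point function from below -/
theorem low_tauf : ∃ c C : ℝ, 0 < c ∧ 0 < C ∧ ∀ p : unitInterval, (1 / 2 : ℝ) ≤ p →
    (p : ℝ) ≤ 3 / 4 → ∀ x : Vtx,
    c * ((nv x : ℝ) + 1) ^ (-(5 / 24) : ℝ) *
      Real.exp (-(C * (nv x * ((p : ℝ) - 1 / 2) ^ (4 / 3 : ℝ)))) ≤ tauf p x := by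
  obtain ⟨c, C, hc, hC, h⟩ := pr_tf_low
  refine ⟨c * Real.exp (-C), C, by positivity, hC, fun p hp hp2 x => ?_⟩
  obtain ⟨ht0, ht1⟩ := t_bd p hp
  have h1 := h p x (nv x + 1) hp hp2 (by omega) (by omega)
  have h2 := fin_ge p (loc_tp x) (R := 5 * (nv x + 1)) (m := 10 * (nv x + 1)) (by omega)
  have e : tauf p x = (bondLaw p).real {ω | Reach (opn ω) (0, 0) x ∧ (cluster0 ω).Finite} := by
    unfold tauf
    congr 1
    ext ω
    exact and_congr_left fun _ => mem_cl ω x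
  rw [e]
  refine le_trans ?_ (h1.trans h2)
  obtain ⟨t, ht⟩ : ∃ t : ℝ, t = ((p : ℝ) - 1 / 2) ^ (4 / 3 : ℝ) := ⟨_, rfl⟩
  rw [← ht] at ht0 ht1 ⊢
  have e1 : Real.exp (-C) * Real.exp (-(C * (nv x * t))) ≤
      Real.exp (-(C * (((nv x + 1 : ℕ) : ℝ) * t))) := by
    rw [← Real.exp_add]
    apply Real.exp_le_exp.mpr
    push_cast
    nlinarith
  have hnp : 0 < ((nv x : ℝ) + 1) ^ (-(5 / 24) : ℝ) := by positivity
  have e2 := mul_le_mul_of_nonneg_left e1 (mul_nonneg hc.le hnp.le)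
  push_cast at e2 ⊢
  calc _ = c * ((nv x : ℝ) + 1) ^ (-(5 / 24) : ℝ) *
        (Real.exp (-C) * Real.exp (-(C * (nv x * t)))) := by ring
    _ ≤ _ := e2

end Q291.TT
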