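import Pool.Agent.Q291.TT.Lo

/-!
Two-point functions of bond percolation on the square lattice above the critical point: the
sums over the lattice (by helper291).
-/

set_option maxHeartbeats 400000

namespace Q291.TT

open Finset H974 Pool.Agent.H160R2.CV Pool.Agent.H160R2.CV.Quad H362P Pool.Agent.Y244.PC Q291.CS
open Q291.SA MeasureTheory Filter

theorem tsum_up {F : Vtx → ℝ} {g : ℕ → ℝ} (hg : ∀ k, 0 ≤ g k) (hF : ∀ x, F x ≤ g (nv x)) {B : ℝ}
    (hB : ∀ n : ℕ, ∑ k ∈ range (n + 1), 8 * ((k : ℝ) + 1) * g k ≤ B) :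
    ∑' x : Vtx, ENNReal.ofReal (F x) ≤ ENNReal.ofReal B := by
  classical
  rw [ENNReal.tsum_eq_iSup_sum]
  refine iSup_le fun s => ?_
  obtain ⟨n, hn⟩ : ∃ n : ℕ, ∀ x ∈ s, nv x ≤ n :=
    ⟨s.sup nv, fun x hx => Finset.le_sup (f := nv) hx⟩
  have h1 : s ⊆ bx n := fun x hx => mem_bx.mpr (hn x hx)
  calc ∑ x ∈ s, ENNReal.ofReal (F x) ≤ ∑ x ∈ s, ENNReal.ofReal (g (nv x)) :=
        Finset.sum_le_sum fun x _ => ENNReal.ofReal_le_ofReal (hF x)
    _ = ENNReal.ofReal (∑ x ∈ s, g (nv x)) :=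
        (ENNReal.ofReal_sum_of_nonneg fun x _ => hg _).symm
    _ ≤ ENNReal.ofReal B := by
        apply ENNReal.ofReal_le_ofReal
        refine (Finset.sum_le_sum_of_subset_of_nonneg h1 fun x _ _ => hg _).trans ?_
        refine (sum_bx n g hg).trans ?_
        refine le_trans (le_of_eq ?_) (hB n)
        rw [Finset.mul_sum]
        exact Finset.sum_congr rfl fun k _ => by ring

theorem geo_exp {b : ℝ} (hb : 0 < b) (n : ℕ) :
    ∑ k ∈ range n, Real.exp (-(b * ((k : ℝ) + 1))) ≤ 1 / b := by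
  obtain ⟨r, hr⟩ : ∃ r : ℝ, r = Real.exp (-b) := ⟨_, rfl⟩
  have hr0 : 0 < r := by rw [hr]; exact Real.exp_pos _
  have hr1 : r < 1 := by rw [hr, Real.exp_lt_one_iff]; linarith
  have e1 : ∀ k : ℕ, Real.exp (-(b * ((k : ℝ) + 1))) = r * r ^ k := by
    intro k
    rw [hr, ← Real.exp_nat_mul, ← Real.exp_add]
    congr 1
    ring
  simp_rw [e1]
  rw [← Finset.mul_sum]
  have h1 : ∑ k ∈ range n, r ^ k ≤ 1 / (1 - r) := by
    rw [geom_sum_eq hr1.ne n]
    rw [← neg_div_neg_eq]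
    have h2 : 0 < 1 - r := by linarith
    have h3 : 0 < r ^ n := by positivity
    have : -(r ^ n - 1) / -(r - 1) = (1 - r ^ n) / (1 - r) := by ring_nf
    rw [this]
    apply div_le_div_of_nonneg_right _ h2.le
    linarith
  have h4 : r * (1 / (1 - r)) ≤ 1 / b := by
    have h2 : 0 < 1 - r := by linarith
    rw [mul_one_div, div_le_div_iff₀ h2 hb]
    have h5 : (1 + b) * r ≤ 1 := by
      have h6 := Real.add_one_le_exp b
      have h7 : Real.exp b * r = 1 := by rw [hr, ← Real.exp_add]; simp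
      nlinarith
    linarith
  exact (mul_le_mul_of_nonneg_left h1 hr0.le).trans h4

theorem pow_exp {c : ℝ} (hc : 0 < c) (j : ℕ) {e : ℝ} (he0 : 0 ≤ e) (he1 : e ≤ j) {z : ℝ}
    (hz : 0 ≤ z) : z ^ e * Real.exp (-(c * z)) ≤
      (1 + j.factorial * (2 / c) ^ j) * Real.exp (-(c / 2 * z)) := by
  have h1 : z ^ e ≤ 1 + z ^ j := by
    rcases le_or_gt z 1 with h | h
    · have := Real.rpow_le_one hz h he0
      have : 0 ≤ z ^ j := by positivity
      linarith
    · have : z ^ e ≤ z ^ (j : ℝ) := Real.rpow_le_rpow_of_exponent_le h.le he1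
      rw [Real.rpow_natCast] at this
      linarith
  have h2 : z ^ j ≤ j.factorial * (2 / c) ^ j * Real.exp (c / 2 * z) := by
    have h3 := Real.pow_div_factorial_le_exp (c / 2 * z) (by positivity) j
    rw [div_le_iff₀ (by positivity)] at h3
    have h4 : z ^ j = (2 / c) ^ j * (c / 2 * z) ^ j := by
      rw [← mul_pow]
      congr 1
      field_simp
    rw [h4]
    have := mul_le_mul_of_nonneg_left h3 (by positivity : 0 ≤ (2 / c) ^ j)
    linarith
  have h5 : Real.exp (-(c * z)) = Real.exp (-(c / 2 * z)) * Real.exp (-(c / 2 * z)) := by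
    rw [← Real.exp_add]
    congr 1
    ring
  have h6 : Real.exp (c / 2 * z) * Real.exp (-(c / 2 * z)) = 1 := by
    rw [← Real.exp_add]; simp
  have h7 : Real.exp (-(c / 2 * z)) ≤ 1 := by
    rw [Real.exp_le_one_iff]
    have : 0 ≤ c / 2 * z := by positivity
    linarith
  have h8 := Real.exp_pos (-(c / 2 * z))
  calc z ^ e * Real.exp (-(c * z)) ≤ (1 + z ^ j) * Real.exp (-(c * z)) :=
        mul_le_mul_of_nonneg_right h1 (Real.exp_pos _).le
    _ = (Real.exp (-(c / 2 * z)) + z ^ j * Real.exp (-(c / 2 * z))) *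
          Real.exp (-(c / 2 * z)) := by rw [h5]; ring
    _ ≤ (1 + (j.factorial * (2 / c) ^ j)) * Real.exp (-(c / 2 * z)) := by
        apply mul_le_mul_of_nonneg_right _ h8.le
        apply add_le_add h7
        calc z ^ j * Real.exp (-(c / 2 * z)) ≤
              j.factorial * (2 / c) ^ j * Real.exp (c / 2 * z) * Real.exp (-(c / 2 * z)) :=
              mul_le_mul_of_nonneg_right h2 h8.le
          _ = _ := by rw [mul_assoc, h6, mul_one]

/-- the sum over the shells -/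
theorem sum_shell (k : ℕ) {a c : ℝ} (ha0 : 0 ≤ a) (ha1 : a ≤ 1) (hc : 0 < c) :
    ∃ D : ℝ, 0 < D ∧ ∀ t : ℝ, 0 < t → t ≤ 1 → ∀ n : ℕ,
      ∑ m ∈ range n, 8 * ((m : ℝ) + 1) * ((m : ℝ) ^ k * (((m : ℝ) + 1) ^ (-a) *
        Real.exp (-(c * (m * t))))) ≤ D * t ^ (-(2 + k - a)) := by
  obtain ⟨K, hK⟩ : ∃ K : ℝ, K = 1 + (k + 1).factorial * (2 / c) ^ (k + 1) := ⟨_, rfl⟩
  have hK0 : 0 < K := by rw [hK]; positivity
  refine ⟨8 * Real.exp c * K * (2 / c), by positivity, fun t ht ht1 n => ?_⟩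
  have key : ∀ m : ℕ, 8 * ((m : ℝ) + 1) * ((m : ℝ) ^ k * (((m : ℝ) + 1) ^ (-a) *
        Real.exp (-(c * (m * t))))) ≤
      8 * Real.exp c * K * t ^ (-(1 + k - a)) * Real.exp (-(c / 2 * t * ((m : ℝ) + 1))) := by
    intro m
    obtain ⟨y, hy⟩ : ∃ y : ℝ, y = (m : ℝ) + 1 := ⟨_, rfl⟩
    have hm0 : (0 : ℝ) ≤ m := by positivity
    have hy0 : 0 < y := by rw [hy]; linarith
    rw [← hy]
    have e1 : (m : ℝ) ^ k ≤ y ^ k := pow_le_pow_left₀ hm0 (by linarith) k
    have e2 : Real.exp (-(c * (m * t))) ≤ Real.exp c * Real.exp (-(c * (y * t))) := by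
      rw [← Real.exp_add]
      apply Real.exp_le_exp.mpr
      rw [hy]
      nlinarith
    have e3 : y * (y ^ k * y ^ (-a)) = y ^ (1 + k - a) := by
      rw [← Real.rpow_natCast, ← Real.rpow_add hy0]
      nth_rewrite 1 [← Real.rpow_one y]
      rw [← Real.rpow_add hy0]
      congr 1
      ring
    have e4 := pow_exp hc (k + 1) (e := 1 + k - a) (by
        have : (0 : ℝ) ≤ k := by positivity
        linarith) (by push_cast; linarith) (z := y * t) (by positivity)
    rw [← hK] at e4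
    have e5 : y ^ (1 + k - a) = t ^ (-(1 + k - a)) * (y * t) ^ (1 + k - a) := by
      rw [Real.mul_rpow hy0.le ht.le, Real.rpow_neg ht.le]
      have : t ^ (1 + k - a) ≠ 0 := by positivity
      field_simp
    have hp : 0 < y ^ (-a) := by positivity
    calc 8 * y * ((m : ℝ) ^ k * (y ^ (-a) * Real.exp (-(c * (m * t)))))
        ≤ 8 * y * (y ^ k * (y ^ (-a) * (Real.exp c * Real.exp (-(c * (y * t)))))) := by
          apply mul_le_mul_of_nonneg_left _ (by positivity)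
          apply mul_le_mul e1 _ (by positivity) (by positivity)
          exact mul_le_mul_of_nonneg_left e2 hp.le
      _ = 8 * Real.exp c * (y * (y ^ k * y ^ (-a))) * Real.exp (-(c * (y * t))) := by ring
      _ = 8 * Real.exp c * t ^ (-(1 + k - a)) *
          ((y * t) ^ (1 + k - a) * Real.exp (-(c * (y * t)))) := by rw [e3, e5]; ring
      _ ≤ 8 * Real.exp c * t ^ (-(1 + k - a)) * (K * Real.exp (-(c / 2 * (y * t)))) :=
          mul_le_mul_of_nonneg_left e4 (by positivity)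
      _ = 8 * Real.exp c * K * t ^ (-(1 + k - a)) * Real.exp (-(c / 2 * t * y)) := by
          rw [show c / 2 * (y * t) = c / 2 * t * y by ring]
          ring
  refine (Finset.sum_le_sum fun m _ => key m).trans ?_
  rw [← Finset.mul_sum]
  have h1 := geo_exp (b := c / 2 * t) (by positivity) n
  have h2 : 0 ≤ 8 * Real.exp c * K * t ^ (-(1 + k - a)) := by positivity
  refine (mul_le_mul_of_nonneg_left h1 h2).trans (le_of_eq ?_)
  have h3 : t ^ (-(2 + k - a)) = t ^ (-(1 + k - a)) * t⁻¹ := by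
    rw [← Real.rpow_neg_one t, ← Real.rpow_add ht]
    congr 1
    ring
  rw [h3]
  field_simp

theorem tsum_low {F : Vtx → ℝ} (hF : ∀ x, 0 ≤ F x) (s : Finset Vtx) {b : ℝ}
    (hb : ∀ x ∈ s, b ≤ F x) :
    ENNReal.ofReal ((s.card : ℝ) * b) ≤ ∑' x : Vtx, ENNReal.ofReal (F x) := by
  refine le_trans ?_ (ENNReal.sum_le_tsum s)
  rw [← ENNReal.ofReal_sum_of_nonneg fun x _ => hF x]
  apply ENNReal.ofReal_le_ofReal
  have := Finset.sum_le_sum hb
  rwa [Finset.sum_const, nsmul_eq_mul] at this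

theorem ring_card (R : ℕ) : (R : ℝ) ^ 2 ≤ ((bx (2 * R) \ bx R).card : ℝ) := by
  have h1 : bx R ⊆ bx (2 * R) := by
    intro x hx
    rw [mem_bx] at hx ⊢
    omega
  rw [Finset.card_sdiff_of_subset h1, Nat.cast_sub (Finset.card_le_card h1), w_card_bx,
    w_card_bx]
  push_cast
  have : (0 : ℝ) ≤ R := by positivity
  nlinarith

/-- the moments from below -/
theorem sum_low (k : ℕ) {a c C : ℝ} (ha0 : 0 ≤ a) (ha1 : a ≤ 1) (hc : 0 < c) (hC : 0 < C) :
    ∃ D : ℝ, 0 < D ∧ ∀ t : ℝ, 0 < t → t ≤ 1 → ∀ F : Vtx → ℝ, (∀ x, 0 ≤ F x) →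
      (∀ x, c * ((nv x : ℝ) + 1) ^ (-a) * Real.exp (-(C * (nv x * t))) ≤ F x) →
      ENNReal.ofReal (D * t ^ (-(2 + k - a))) ≤
        ∑' x : Vtx, ENNReal.ofReal ((nv x : ℝ) ^ k * F x) := by
  refine ⟨(1 / 2) ^ (k + 2) * (c * ((3 : ℝ)⁻¹ * Real.exp (-(2 * C)))), by positivity,
    fun t ht ht1 F hF0 hF => ?_⟩
  obtain ⟨R, hR⟩ : ∃ R : ℕ, R = ⌊t⁻¹⌋₊ := ⟨_, rfl⟩
  have hti : 1 ≤ t⁻¹ := (one_le_inv₀ ht).mpr ht1
  have hR1 : 1 ≤ R := by rw [hR]; exact Nat.le_floor (by simpa using hti)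
  have hR1' : (1 : ℝ) ≤ R := by exact_mod_cast hR1
  have hRt : (R : ℝ) ≤ t⁻¹ := by rw [hR]; exact Nat.floor_le (by positivity)
  have hRt2 : t⁻¹ / 2 ≤ R := by
    have := Nat.lt_floor_add_one t⁻¹
    rw [← hR] at this
    linarith
  have hRt3 : (R : ℝ) * t ≤ 1 := by
    calc (R : ℝ) * t ≤ t⁻¹ * t := mul_le_mul_of_nonneg_right hRt ht.le
      _ = 1 := inv_mul_cancel₀ ht.ne'
  have hR0 : (0 : ℝ) < R := by linarith
  obtain ⟨b, hb⟩ : ∃ b : ℝ, b = (R : ℝ) ^ k * (c * (((3 : ℝ)⁻¹ * (R : ℝ) ^ (-a)) *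
    Real.exp (-(2 * C)))) := ⟨_, rfl⟩
  have hb0 : 0 < b := by rw [hb]; positivity
  have h1 := tsum_low (F := fun x : Vtx => (nv x : ℝ) ^ k * F x)
    (fun x => mul_nonneg (by positivity) (hF0 x)) (bx (2 * R) \ bx R) (b := b) (by
      intro x hx
      rw [Finset.mem_sdiff, mem_bx, mem_bx] at hx
      obtain ⟨hx1, hx2⟩ := hx
      have hx1' : (nv x : ℝ) ≤ 2 * R := by exact_mod_cast hx1
      have hx2' : (R : ℝ) ≤ nv x := by
        have : R ≤ nv x := by omega
        exact_mod_cast this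
      rw [hb]
      apply mul_le_mul (pow_le_pow_left₀ hR0.le hx2' k) _ (by positivity) (by positivity)
      refine le_trans ?_ (hF x)
      rw [show c * ((nv x : ℝ) + 1) ^ (-a) * Real.exp (-(C * (nv x * t))) =
        c * (((nv x : ℝ) + 1) ^ (-a) * Real.exp (-(C * (nv x * t)))) from mul_assoc _ _ _]
      apply mul_le_mul_of_nonneg_left _ hc.le
      apply mul_le_mul
      · calc (3 : ℝ)⁻¹ * (R : ℝ) ^ (-a) ≤ (3 : ℝ) ^ (-a) * (R : ℝ) ^ (-a) := by
              apply mul_le_mul_of_nonneg_right _ (by positivity)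
              rw [← Real.rpow_neg_one]
              exact Real.rpow_le_rpow_of_exponent_le (by norm_num) (by linarith)
          _ = (3 * (R : ℝ)) ^ (-a) := (Real.mul_rpow (by norm_num) hR0.le).symm
          _ ≤ ((nv x : ℝ) + 1) ^ (-a) :=
              Real.rpow_le_rpow_of_nonpos (by positivity) (by linarith) (by linarith)
      · apply Real.exp_le_exp.mpr
        have : (nv x : ℝ) * t ≤ 2 := by
          calc (nv x : ℝ) * t ≤ 2 * R * t := mul_le_mul_of_nonneg_right hx1' ht.le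
            _ = 2 * (R * t) := by ring
            _ ≤ 2 := by linarith
        have := mul_le_mul_of_nonneg_left this hC.le
        linarith
      · exact (Real.exp_pos _).le
      · positivity)
  refine le_trans (ENNReal.ofReal_le_ofReal ?_) h1
  have h2 := mul_le_mul_of_nonneg_right (ring_card R) hb0.le
  refine le_trans ?_ h2
  have e1 : (R : ℝ) ^ 2 * b = (R : ℝ) ^ (2 + k - a) * (c * ((3 : ℝ)⁻¹ * Real.exp (-(2 * C)))) := by
    have : (R : ℝ) ^ (2 + k - a) = (R : ℝ) ^ 2 * ((R : ℝ) ^ k * (R : ℝ) ^ (-a)) := by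
      rw [← Real.rpow_natCast, ← Real.rpow_natCast, ← Real.rpow_add hR0, ← Real.rpow_add hR0]
      congr 1
      push_cast
      ring
    rw [this, hb]
    ring
  rw [e1, mul_right_comm]
  apply mul_le_mul_of_nonneg_right _ (by positivity)
  have e2 : t ^ (-(2 + k - a)) = (t⁻¹) ^ (2 + k - a) := by
    rw [Real.inv_rpow ht.le, ← Real.rpow_neg ht.le]
  rw [e2]
  have hk0 : (0 : ℝ) ≤ k := by positivity
  calc (1 / 2 : ℝ) ^ (k + 2) * (t⁻¹) ^ (2 + k - a)
      ≤ (1 / 2 : ℝ) ^ (2 + k - a) * (t⁻¹) ^ (2 + k - a) := by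
        apply mul_le_mul_of_nonneg_right _ (by positivity)
        rw [← Real.rpow_natCast]
        apply Real.rpow_le_rpow_of_exponent_ge (by norm_num) (by norm_num)
        push_cast
        linarith
    _ = (t⁻¹ / 2) ^ (2 + k - a) := by
        rw [← Real.mul_rpow (by norm_num) (by positivity)]
        congr 1
        ring
    _ ≤ (R : ℝ) ^ (2 + k - a) :=
        Real.rpow_le_rpow (by positivity) hRt2 (by linarith)

/-- the sums from above -/
theorem sum_up (k : ℕ) {a c C : ℝ} (ha0 : 0 ≤ a) (ha1 : a ≤ 1) (hc : 0 < c) (hC : 0 < C) :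
    ∃ D : ℝ, 0 < D ∧ ∀ t σ : ℝ, 0 < t → t ≤ 1 → 0 ≤ σ → ∀ F : Vtx → ℝ,
      (∀ x, F x ≤ C * (((nv x : ℝ) + 1) ^ (-a) * σ) * Real.exp (-(c * (nv x * t)))) →
      ∑' x : Vtx, ENNReal.ofReal ((nv x : ℝ) ^ k * F x) ≤
        ENNReal.ofReal (D * (σ * t ^ (-(2 + k - a)))) := by
  obtain ⟨D, hD, h⟩ := sum_shell k ha0 ha1 hc
  refine ⟨C * D, by positivity, fun t σ ht ht1 hσ F hF => ?_⟩
  apply tsum_up (g := fun m => C * σ * ((m : ℝ) ^ k * (((m : ℝ) + 1) ^ (-a) *
        Real.exp (-(c * (m * t))))))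
  · intro m
    positivity
  · intro x
    have := mul_le_mul_of_nonneg_left (hF x) (by positivity : 0 ≤ (nv x : ℝ) ^ k)
    refine this.trans (le_of_eq ?_)
    ring
  · intro n
    have h1 := h t ht ht1 (n + 1)
    have h2 := mul_le_mul_of_nonneg_left h1 (mul_nonneg hC.le hσ)
    rw [Finset.mul_sum] at h2
    refine le_trans (le_of_eq ?_) (h2.trans (le_of_eq ?_))
    · exact Finset.sum_congr rfl fun m _ => by ring
    · ring

theorem tauf_zero (p : unitInterval) : tauf p 0 = 1 - theta p ∧ thetaTwo p 0 = theta p := by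
  constructor
  · have h1 := tau_split p 0
    have h2 : H31K.tau p 0 = 1 := by
      unfold H31K.tau
      have e : {ω : sqLattice.edgeSet → Bool | (0 : Vtx) ∈ cluster0 ω} = Set.univ := by
        ext ω
        simp only [Set.mem_univ, iff_true]
        exact SimpleGraph.Reachable.refl _
      rw [e]
      simp
    have h3 : ti p 0 = theta p := by
      unfold ti theta
      congr 1
      ext ω
      constructor
      · exact fun h => h.2
      · exact fun h => ⟨SimpleGraph.Reachable.refl _, h⟩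
    linarith
  · unfold thetaTwo theta
    congr 1
    ext ω
    constructor
    · exact fun h => h.1
    · exact fun h => ⟨h, h⟩

theorem cov_nonneg (p : unitInterval) (hp : (1 / 2 : ℝ) ≤ p) (x : Vtx) :
    0 ≤ thetaTwo p x - theta p ^ 2 := by
  have h1 := theta_sq_le p hp x
  have h2 := ti_le_two p x
  linarith

/-- the sum of the covariances from below -/
theorem cov_low : ∃ c : ℝ, 0 < c ∧ ∀ p : unitInterval, (1 / 2 : ℝ) < p → (p : ℝ) ≤ 3 / 4 →
    ENNReal.ofReal (c * ((p : ℝ) - 1 / 2) ^ (-(43 / 18) : ℝ)) ≤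
      ∑' x : Vtx, ENNReal.ofReal (thetaTwo p x - theta p ^ 2) := by
  obtain ⟨c, hc, h⟩ := low_cov
  obtain ⟨c1, C1, hc1, hC1, h1⟩ := low_tauf
  obtain ⟨c2, hc2, h2⟩ := theta_low
  obtain ⟨b, hb⟩ : ∃ b : ℝ, b = min c 1 := ⟨_, rfl⟩
  have hb0 : 0 < b := by rw [hb]; positivity
  have hbc : b ≤ c := by rw [hb]; exact min_le_left _ _
  have hb1 : b ≤ 1 := by rw [hb]; exact min_le_right _ _
  refine ⟨min (b ^ 3 / 4) (c1 * c2 * b ^ (43 / 24 : ℝ) * b ^ (5 / 48 : ℝ)), by positivity,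
    fun p hp hp2 => ?_⟩
  obtain ⟨ht0, ht1⟩ := t_bd p hp.le
  have g := h p hp.le
  have g2 := h2 p hp.le
  have g1 := h1 p hp.le hp2 0
  have hcov := cov_nonneg p hp.le
  have hth0 := theta_nonneg p
  obtain ⟨s, hs⟩ : ∃ s : ℝ, s = (p : ℝ) - 1 / 2 := ⟨_, rfl⟩
  have hs0 : 0 < s := by rw [hs]; linarith
  rw [← hs] at g g1 g2 ht0 ht1 ⊢
  have hσt := pow_t hs0.le
  have hexp : s ^ (-(43 / 18) : ℝ) = (s ^ (4 / 3 : ℝ)) ^ (-(43 / 24) : ℝ) := by
    rw [← Real.rpow_mul hs0.le]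
    norm_num
  obtain ⟨t, ht⟩ : ∃ t : ℝ, t = s ^ (4 / 3 : ℝ) := ⟨_, rfl⟩
  have ht00 : 0 < t := by rw [ht]; positivity
  rw [← ht] at g g1 hσt hexp ht1
  rw [hexp]
  rw [← hσt] at g g2
  have htp : 0 < t ^ (-(43 / 24) : ℝ) := by positivity
  rcases le_or_gt t b with hcase | hcase
  · -- near the critical point
    obtain ⟨R, hR⟩ : ∃ R : ℕ, R = ⌊b / t⌋₊ := ⟨_, rfl⟩
    have hbt : 1 ≤ b / t := by rwa [one_le_div ht00]
    have hR1 : 1 ≤ R := by rw [hR]; exact Nat.le_floor (by simpa using hbt)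
    have hRt : (R : ℝ) ≤ b / t := by rw [hR]; exact Nat.floor_le (by positivity)
    have hRt2 : b / t / 2 ≤ R := by
      have h1R : (1 : ℝ) ≤ R := by exact_mod_cast hR1
      have := Nat.lt_floor_add_one (b / t)
      rw [← hR] at this
      linarith
    have hR0 : (0 : ℝ) < R := by exact_mod_cast hR1
    have hRb : (R : ℝ) * t ≤ b := by rwa [le_div_iff₀ ht00] at hRt
    have k1 := tsum_low hcov (bx (R - 1)) (b := b * ((R : ℝ) ^ (-(5 / 48) : ℝ) *
      t ^ (5 / 48 : ℝ))) (by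
        intro x hx
        rw [mem_bx] at hx
        have hx' : (nv x : ℝ) + 1 ≤ R := by
          have : nv x + 1 ≤ R := by omega
          exact_mod_cast this
        have e1 : ((nv x : ℝ) + 1) * t ≤ c :=
          (mul_le_mul_of_nonneg_right hx' ht00.le).trans (hRb.trans hbc)
        refine le_trans ?_ (g x e1)
        apply mul_le_mul hbc _ (by positivity) hc.le
        apply mul_le_mul_of_nonneg_right _ (by positivity)
        exact Real.rpow_le_rpow_of_nonpos (by positivity) hx' (by norm_num))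
    refine le_trans (ENNReal.ofReal_le_ofReal ?_) k1
    have k2 : (R : ℝ) ^ 2 ≤ ((bx (R - 1)).card : ℝ) := by
      rw [w_card_bx, Nat.cast_sub hR1]
      push_cast
      have : (1 : ℝ) ≤ R := by exact_mod_cast hR1
      nlinarith
    have k3 : (b / t / 2) ^ 2 ≤ (R : ℝ) ^ 2 := pow_le_pow_left₀ (by positivity) hRt2 2
    have k4 : t ^ (5 / 48 : ℝ) ≤ (R : ℝ) ^ (-(5 / 48) : ℝ) := by
      have e1 : (R : ℝ) ≤ t⁻¹ := by
        refine hRt.trans ?_
        rw [div_eq_mul_inv]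
        calc b * t⁻¹ ≤ 1 * t⁻¹ := mul_le_mul_of_nonneg_right hb1 (by positivity)
          _ = t⁻¹ := one_mul _
      calc t ^ (5 / 48 : ℝ) = (t⁻¹) ^ (-(5 / 48) : ℝ) := by
            rw [Real.inv_rpow ht00.le, ← Real.rpow_neg ht00.le, neg_neg]
        _ ≤ _ := Real.rpow_le_rpow_of_nonpos hR0 e1 (by norm_num)
    calc min (b ^ 3 / 4) (c1 * c2 * b ^ (43 / 24 : ℝ) * b ^ (5 / 48 : ℝ)) * t ^ (-(43 / 24) : ℝ)
        ≤ b ^ 3 / 4 * t ^ (-(43 / 24) : ℝ) :=
          mul_le_mul_of_nonneg_right (min_le_left _ _) htp.le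
      _ = (b / t / 2) ^ 2 * (b * (t ^ (5 / 48 : ℝ) * t ^ (5 / 48 : ℝ))) := by
          have e : t ^ (-(43 / 24) : ℝ) = (t ^ 2)⁻¹ * (t ^ (5 / 48 : ℝ) * t ^ (5 / 48 : ℝ)) := by
            rw [← Real.rpow_natCast, ← Real.rpow_neg ht00.le, ← Real.rpow_add ht00,
              ← Real.rpow_add ht00]
            norm_num
          rw [e]
          field_simp
          norm_num
      _ ≤ (R : ℝ) ^ 2 * (b * ((R : ℝ) ^ (-(5 / 48) : ℝ) * t ^ (5 / 48 : ℝ))) := by
          apply mul_le_mul k3 _ (by positivity) (by positivity)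
          apply mul_le_mul_of_nonneg_left _ hb0.le
          exact mul_le_mul_of_nonneg_right k4 (by positivity)
      _ ≤ _ := mul_le_mul_of_nonneg_right k2 (by positivity)
  · -- away from the critical point
    have k1 := tsum_low hcov {(0 : Vtx)} (b := thetaTwo p 0 - theta p ^ 2) (by
      intro x hx
      rw [Finset.mem_singleton] at hx
      rw [hx])
    refine le_trans (ENNReal.ofReal_le_ofReal ?_) k1
    rw [Finset.card_singleton, (tauf_zero p).2]
    push_cast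
    rw [one_mul]
    have e0 : c1 ≤ 1 - theta p := by
      rw [← (tauf_zero p).1]
      have : nv (0 : Vtx) = 0 := rfl
      rw [this] at g1
      simpa using g1
    have e1 : b ^ (5 / 48 : ℝ) ≤ t ^ (5 / 48 : ℝ) :=
      Real.rpow_le_rpow hb0.le hcase.le (by norm_num)
    have e2 : t ^ (-(43 / 24) : ℝ) ≤ b ^ (-(43 / 24) : ℝ) :=
      Real.rpow_le_rpow_of_nonpos hb0 hcase.le (by norm_num)
    have e3 : b ^ (43 / 24 : ℝ) * b ^ (-(43 / 24) : ℝ) = 1 := by
      rw [← Real.rpow_add hb0]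
      norm_num
    calc min (b ^ 3 / 4) (c1 * c2 * b ^ (43 / 24 : ℝ) * b ^ (5 / 48 : ℝ)) * t ^ (-(43 / 24) : ℝ)
        ≤ c1 * c2 * b ^ (43 / 24 : ℝ) * b ^ (5 / 48 : ℝ) * b ^ (-(43 / 24) : ℝ) :=
          mul_le_mul (min_le_right _ _) e2 htp.le (by positivity)
      _ = c1 * c2 * b ^ (5 / 48 : ℝ) * (b ^ (43 / 24 : ℝ) * b ^ (-(43 / 24) : ℝ)) := by ring
      _ = c1 * (c2 * b ^ (5 / 48 : ℝ)) := by rw [e3]; ring
      _ ≤ c1 * (c2 * t ^ (5 / 48 : ℝ)) := by
          apply mul_le_mul_of_nonneg_left _ hc1.le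
          exact mul_le_mul_of_nonneg_left e1 hc2.le
      _ ≤ (1 - theta p) * theta p := mul_le_mul e0 g2 (by positivity) (hc1.le.trans e0)
      _ = _ := by ring

end Q291.TT
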